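import Pool.Agent.Lib.MP_bc213e_ag.DB.Jm
import Pool.Agent.Lib.MP_bc213e_ag.DA.Api

/-! Basic properties of the fibre. -/

namespace Pool.Agent.Lib.MP_bc213e_ag.DD

open Pool.Agent.Lib.MP_bc213e_ag.Hyp Pool.Agent.Lib.MP_bc213e_ag.DA Pool.Agent.Lib.MP_bc213e_ag.Jet
open Cardinal
open scoped TensorProduct

theorem exists_univ : ∃ (Ω : Type) (_ : Field Ω) (_ : Algebra ℂ Ω) (_ : IsAlgClosed Ω),
    Cardinal.aleph0 ≤ Algebra.trdeg ℂ Ω :=
  ⟨UD ℂ, inferInstance, inferInstance, inferInstance, UD_trdeg ℂ⟩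

section fib

variable {Ω E M : Type} [Field Ω] [Algebra ℂ Ω] [Field E] [Algebra ℂ E] [Algebra Ω E]
  [IsScalarTower ℂ Ω E] [Field M] [Algebra ℂ M] {U : ℕ → Submodule ℂ M}

theorem exists_fib [IsAlgClosed Ω] (hΩ : Cardinal.aleph0 ≤ Algebra.trdeg ℂ Ω)
    [Algebra.EssFiniteType ℂ M] (U : ℕ → Submodule ℂ M) :
    ∃ (E : Type) (_ : Field E) (_ : Algebra ℂ E) (_ : Algebra Ω E) (_ : IsScalarTower ℂ Ω E),
      Nonempty (Fib Ω E U) := by
  obtain ⟨E, _, _, ⟨F⟩⟩ := DA.exists_fib hΩ U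
  let : Algebra ℂ E := ((algebraMap Ω E).comp (algebraMap ℂ Ω)).toAlgebra
  have : IsScalarTower ℂ Ω E := .of_algebraMap_eq fun _ => rfl
  let ι : M →ₐ[ℂ] E := (F.π.restrictScalars ℂ).comp Algebra.TensorProduct.includeRight
  have h : evT Ω ι = F.π := Algebra.TensorProduct.ext (Subsingleton.elim _ _)
    (AlgHom.ext fun f => (evT_tmul Ω ι 1 f).trans (by rw [map_one, one_mul]))
  refine ⟨E, inferInstance, inferInstance, inferInstance, inferInstance,
    ⟨⟨F.k', F.e, ι, h ▸ F.frac, ?_, h ▸ F.bd, fun g => ?_⟩⟩⟩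
  · rw [h, F.ker]
    congr 1
    ext s
    exact ⟨fun ⟨y, hy, e⟩ => ⟨y, hy, e.symm⟩, fun ⟨y, hy, e⟩ => ⟨y, hy, e.symm⟩⟩
  · obtain ⟨S, r, N, h1, h2, h3⟩ := F.large g
    exact ⟨S, r, N, h ▸ h2, h ▸ h1, h ▸ h3⟩

theorem evT_one (ι : M →ₐ[ℂ] E) (f : M) : evT Ω ι (1 ⊗ₜ[ℂ] f) = ι f := by
  rw [evT_tmul, map_one, one_mul]

theorem map_baseChange' {N : Type} [AddCommGroup N] [Module Ω N] (ψ : Ω ⊗[ℂ] M →ₗ[Ω] N)
    (W : Submodule ℂ M) :
    (W.baseChange Ω).map ψ = Submodule.span Ω ((fun f => ψ (1 ⊗ₜ[ℂ] f)) '' W) := by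
  rw [Submodule.baseChange_eq_span, Submodule.map_span]
  congr 1
  ext z
  constructor
  · rintro ⟨_, ⟨f, hf, rfl⟩, rfl⟩
    exact ⟨f, hf, rfl⟩
  · rintro ⟨f, hf, rfl⟩
    exact ⟨_, ⟨f, hf, rfl⟩, rfl⟩

theorem map_baseChange (ι : M →ₐ[ℂ] E) (W : Submodule ℂ M) :
    (W.baseChange Ω).map (evT Ω ι).toLinearMap = Submodule.span Ω (ι '' W) := by
  rw [map_baseChange']
  simp only [AlgHom.toLinearMap_apply, evT_one]

/-- An ideal that is stable under all `rder D` is trivial. -/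
theorem diff_simple (I : Ideal (Ω ⊗[ℂ] M)) (h : ∀ D : Derivation ℂ M M, ∀ s ∈ I, rder D s ∈ I)
    (h1 : I ≠ ⊤) : I = ⊥ :=
  simple_of (𝒟 := Set.univ) (fun _ hf => const_of_der fun δ => hf δ trivial) (fun D _ => h D) h1

namespace Fib

variable (F : Fib Ω E U)

theorem eps_mem {y : M} (hy : y ∈ F.k) :
    F.e y ⊗ₜ[ℂ] (1 : M) - (1 : Ω) ⊗ₜ[ℂ] y ∈ RingHom.ker (evT Ω F.ι) :=
  F.ker ▸ Ideal.subset_span ⟨y, hy, rfl⟩

theorem ι_k {y : M} (hy : y ∈ F.k) : F.ι y = algebraMap Ω E (F.e y) := by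
  have h := F.eps_mem hy
  rw [RingHom.mem_ker, map_sub, evT_one, evT_tmul, map_one, mul_one, sub_eq_zero] at h
  exact h.symm

theorem ι_smul (c : F.k) (f : M) : F.ι (c • f) = F.e c • F.ι f := by
  rw [IntermediateField.smul_def, smul_eq_mul, map_mul, F.ι_k c.2, Algebra.smul_def]

theorem bd' {a : ℕ} (ha : 0 < a) : FiniteDimensional Ω (Submodule.span Ω (F.ι '' U a)) :=
  map_baseChange (Ω := Ω) F.ι (U a) ▸ F.bd a ha

/-- A functional that is linear over `k` kills the kernel. -/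
theorem kill (ℓ : M →ₗ[ℂ] Ω) (hℓ : ∀ y ∈ F.k, ∀ f, ℓ (f * y) = F.e y * ℓ f) {s : Ω ⊗[ℂ] M}
    (hs : evT Ω F.ι s = 0) : ℓ.liftBaseChange Ω s = 0 := by
  have h1 := F.ker.le hs
  clear hs
  rw [← one_mul s]
  generalize (1 : Ω ⊗[ℂ] M) = t
  induction h1 using Submodule.span_induction generalizing t with
  | mem s hs =>
    obtain ⟨y, hy, rfl⟩ := hs
    induction t with
    | zero => rw [zero_mul, map_zero]
    | add t t' h h' => rw [add_mul, map_add, h, h', add_zero]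
    | tmul c g =>
      rw [mul_sub, map_sub, Algebra.TensorProduct.tmul_mul_tmul,
        Algebra.TensorProduct.tmul_mul_tmul, LinearMap.liftBaseChange_tmul,
        LinearMap.liftBaseChange_tmul, hℓ y hy, mul_one, mul_one, smul_eq_mul, smul_eq_mul,
        mul_assoc, sub_self]
  | zero => rw [mul_zero, map_zero]
  | add s s' _ _ h h' => rw [mul_add, map_add, h, h', add_zero]
  | smul r s _ h => rw [smul_eq_mul, ← mul_assoc, h]

theorem indep {κ : Type} {f : κ → M} (h : LinearIndependent F.k f) :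
    LinearIndependent Ω fun i => F.ι (f i) := by
  classical
  refine linearIndependent_iff'.2 fun I c hc j hj => ?_
  obtain ⟨ℓ, hℓ⟩ := LinearMap.exists_extend (Finsupp.lapply j ∘ₗ h.repr)
  have h1 : ∀ i, ℓ (f i) = if i = j then 1 else 0 := fun i => by
    have h2 := LinearMap.congr_fun hℓ ⟨f i, Submodule.subset_span ⟨i, rfl⟩⟩
    rw [LinearMap.comp_apply, LinearMap.comp_apply, h.repr_eq_single i _ rfl,
      Finsupp.lapply_apply, Finsupp.single_apply] at h2
    exact h2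
  let ψ : M →ₗ[ℂ] Ω := (F.e.comp F.k.val).toLinearMap ∘ₗ ℓ.restrictScalars ℂ
  have hψ : ∀ y, ψ y = F.e (ℓ y) := fun _ => rfl
  have h4 := F.kill ψ (fun y hy g => by
    have h3 : ℓ (g * y) = ⟨y, hy⟩ * ℓ g := mul_comm g y ▸ ℓ.map_smul ⟨y, hy⟩ g
    rw [hψ, hψ, h3, MulMemClass.coe_mul, map_mul]) (s := ∑ i ∈ I, c i ⊗ₜ[ℂ] f i) (by
    rw [map_sum, ← hc]
    exact Finset.sum_congr rfl fun i _ => (Algebra.smul_def _ _).symm)
  rw [map_sum, Finset.sum_eq_single j (fun i _ hi => by simp [hψ, h1, hi])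
    (fun hh => absurd hj hh)] at h4
  simpa [hψ, h1] using h4

theorem indep_iff {J : Type} {f : J → M} :
    LinearIndependent F.k f ↔ LinearIndependent Ω fun i => F.ι (f i) := by
  refine ⟨F.indep, fun h => linearIndependent_iff'.2 fun I c hc j hj => ?_⟩
  have h1 := congrArg F.ι hc
  rw [map_sum, map_zero] at h1
  simp only [ι_smul] at h1
  exact Subtype.ext (F.e.injective ((linearIndependent_iff'.1 h I _ h1 j hj).trans
    (map_zero _).symm))

/-- The functions that are constant on the fibre come from the base. -/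
theorem mem_of_const {f : M} {c : Ω} (h : F.ι f = algebraMap Ω E c) : f ∈ F.k := by
  by_contra hf
  have h1 : LinearIndependent F.k ![1, f] := (LinearIndependent.pair_iff' one_ne_zero).2
    fun a ha => hf (ha ▸ by simp [IntermediateField.smul_def])
  have h2 := F.indep h1
  have h3 : (fun i => F.ι (![1, f] i)) = ![1, F.ι f] := by
    funext i
    fin_cases i <;> simp
  rw [h3] at h2
  exact (LinearIndependent.pair_iff' one_ne_zero).1 h2 c
    (by rw [h, Algebra.algebraMap_eq_smul_one])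

theorem top_of {L : Subfield E} (h1 : ∀ c, algebraMap Ω E c ∈ L) (h2 : ∀ f, F.ι f ∈ L) (z : E) :
    z ∈ L := by
  have h : ∀ s, evT Ω F.ι s ∈ L := fun s => by
    induction s with
    | zero => rw [map_zero]; exact zero_mem _
    | add s t hs ht => rw [map_add]; exact add_mem hs ht
    | tmul c f => exact mul_mem (h1 c) (h2 f)
  obtain ⟨s, t, ht, e⟩ := F.frac z
  rw [eq_div_of_mul_eq ht e]
  exact div_mem (h s) (h t)

theorem adjoin_top {S : Set M} (hS : IntermediateField.adjoin ℂ S = ⊤) :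
    IntermediateField.adjoin Ω (F.ι '' S) = ⊤ := by
  refine eq_top_iff.2 fun z _ => F.top_of (L := (IntermediateField.adjoin Ω _).toSubfield)
    (fun c => IntermediateField.algebraMap_mem _ c) (fun f => ?_) z
  have hf : f ∈ IntermediateField.adjoin ℂ S := hS ▸ IntermediateField.mem_top
  change F.ι f ∈ IntermediateField.adjoin Ω (F.ι '' S)
  induction hf using IntermediateField.adjoin_induction with
  | mem x hx => exact IntermediateField.subset_adjoin _ _ ⟨x, hx, rfl⟩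
  | algebraMap c =>
    rw [F.ι.commutes, IsScalarTower.algebraMap_apply ℂ Ω E]
    exact IntermediateField.algebraMap_mem _ _
  | add x y _ _ hx hy => rw [map_add]; exact add_mem hx hy
  | inv x _ hx => rw [map_inv₀]; exact inv_mem hx
  | mul x y _ _ hx hy => rw [map_mul]; exact mul_mem hx hy

include F in
theorem essFiniteType [Algebra.EssFiniteType ℂ M] : Algebra.EssFiniteType Ω E := by
  classical
  obtain ⟨S, hS⟩ := IntermediateField.fg_top ℂ M
  exact IntermediateField.fg_top_iff.1 ⟨S.image F.ι, by rw [Finset.coe_image, F.adjoin_top hS]⟩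

theorem algInd {J : Type} {z : J → M} (hz : AlgebraicIndependent F.k z) :
    AlgebraicIndependent Ω fun i => F.ι (z i) := by
  have h := F.indep (algInd_iff.1 hz)
  simp only [Finsupp.prod, map_prod, map_pow] at h
  exact algInd_iff.2 h

theorem isAlgebraic {S : Set M} {f : M} (hf : IsAlgebraic (Algebra.adjoin F.k S) f) :
    IsAlgebraic (Algebra.adjoin Ω (F.ι '' S)) (F.ι f) := by
  have h : ∀ y ∈ Algebra.adjoin F.k S, F.ι y ∈ Algebra.adjoin Ω (F.ι '' S) := fun y hy => by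
    induction hy using Algebra.adjoin_induction with
    | mem x hx => exact Algebra.subset_adjoin ⟨x, hx, rfl⟩
    | algebraMap c => exact (F.ι_k c.2).symm ▸ Subalgebra.algebraMap_mem _ _
    | add x y _ _ hx hy => rw [map_add]; exact add_mem hx hy
    | mul x y _ _ hx hy => rw [map_mul]; exact mul_mem hx hy
  let ρ : Algebra.adjoin F.k S →+* Algebra.adjoin Ω (F.ι '' S) :=
    (F.ι.toRingHom.comp (Algebra.adjoin F.k S).val.toRingHom).codRestrict _ fun y => h y y.2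
  exact hf.ringHom_of_comp_eq ρ F.ι.toRingHom
    (fun a b hab => Subtype.ext (F.ι.injective (congrArg Subtype.val hab))) rfl

theorem isTB {J : Type} {z : J → M} (hz : IsTranscendenceBasis F.k z) :
    IsTranscendenceBasis Ω fun i => F.ι (z i) := by
  refine (F.algInd hz.1).isTranscendenceBasis_iff_isAlgebraic.2 ⟨fun w => ?_⟩
  let A := Algebra.adjoin Ω (Set.range fun i => F.ι (z i))
  let L : Subfield E :=
    { (Subalgebra.algebraicClosure A E).toSubring with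
      inv_mem' := fun x hx => IsAlgebraic.inv hx }
  refine F.top_of (L := L) (fun c => isAlgebraic_algebraMap (algebraMap Ω A c)) (fun f => ?_) w
  have h := F.isAlgebraic (hz.isAlgebraic.isAlgebraic f)
  rwa [← Set.range_comp] at h

theorem closed [IsAlgClosed Ω] {f : M} (h : IsAlgebraic F.k f) : f ∈ F.k := by
  have h' : IsAlgebraic Ω (F.ι f) :=
    h.ringHom_of_comp_eq (F.e.comp F.k.val).toRingHom F.ι.toRingHom (RingHom.injective _)
      (RingHom.ext fun c => (F.ι_k c.2).symm)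
  obtain ⟨c, hc⟩ := minpoly.mem_range_of_degree_eq_one Ω _
    (IsAlgClosed.degree_eq_one_of_irreducible Ω (minpoly.irreducible h'.isIntegral))
  exact F.mem_of_const hc.symm

/-- The point `e` lies on the fibre. -/
theorem ev_e {s : Ω ⊗[ℂ] M} (h : evT Ω F.ι s = 0) : evT Ω F.e s = 0 := by
  refine (Ideal.span_le (I := RingHom.ker (evT Ω F.e))).2 ?_ (F.ker.le h)
  rintro _ ⟨y, _, rfl⟩
  simp

/-- A homomorphism on a `k`-subalgebra `A` that extends `e` on `k` kills the kernel. -/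
theorem ev_of_ext (A : Subalgebra ℂ M) (hk : ∀ y ∈ F.k, y ∈ A) (ψ : A →ₐ[ℂ] Ω)
    (hψ : ∀ y : A, (y : M) ∈ F.k → ψ y = F.e y) {s : Ω ⊗[ℂ] A}
    (h : evT Ω (F.ι.comp A.val) s = 0) : evT Ω ψ s = 0 := by
  let : Algebra F.k Ω := (F.e.comp F.k.val).toRingHom.toAlgebra
  have : IsScalarTower ℂ F.k Ω :=
    .of_algebraMap_eq fun r => ((F.e.comp F.k.val).commutes r).symm
  let A' : Submodule F.k M :=
    { A.toAddSubmonoid with smul_mem' := fun c f hf => A.mul_mem (hk c c.2) hf }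
  let ψ' : A' →ₗ[F.k] Ω :=
    { toFun := fun f => ψ ⟨f, f.2⟩
      map_add' := fun f g => map_add ψ ⟨f, f.2⟩ ⟨g, g.2⟩
      map_smul' := fun c f => (map_mul ψ ⟨c, hk c c.2⟩ ⟨f, f.2⟩).trans
        (congrArg (· * ψ ⟨f, f.2⟩) (hψ ⟨c, hk c c.2⟩ c.2)) }
  obtain ⟨ℓ, hℓ⟩ := ψ'.exists_extend
  have h1 : ∀ t : Ω ⊗[ℂ] A, evT Ω (F.ι.comp A.val) t = evT Ω F.ι (A.val.toLinearMap.lTensor Ω t) ∧
      evT Ω ψ t = (ℓ.restrictScalars ℂ).liftBaseChange Ω (A.val.toLinearMap.lTensor Ω t) :=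
    fun t => by
      induction t with
      | zero => simp
      | add t t' h h' => simp only [map_add, h.1, h.2, h'.1, h'.2, and_self]
      | tmul c f => exact ⟨rfl, congrArg (c * ·) (LinearMap.congr_fun hℓ ⟨f, f.2⟩).symm⟩
  rw [(h1 s).2]
  exact F.kill _ (fun y hy g => mul_comm g y ▸ ℓ.map_smul ⟨y, hy⟩ g) ((h1 s).1.symm.trans h)

/-- A pair of derivations that agree on the base preserves the ideal of the fibre. -/
theorem add_mem_ker {d : Derivation ℂ Ω Ω} {D : Derivation ℂ M M}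
    (h : ∀ y ∈ F.k, algebraMap Ω E (d (F.e y)) = F.ι (D y)) {s : Ω ⊗[ℂ] M}
    (hs : s ∈ RingHom.ker (evT Ω F.ι)) : lder d s + rder D s ∈ RingHom.ker (evT Ω F.ι) := by
  have h1 := F.ker.le hs
  clear hs
  induction h1 using Submodule.span_induction with
  | mem s hs =>
    obtain ⟨y, hy, rfl⟩ := hs
    simp [RingHom.mem_ker, h y hy]
  | zero => simp
  | add s t _ _ hs ht =>
    rw [map_add, map_add, add_add_add_comm]
    exact add_mem hs ht
  | smul c s h1 hs =>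
    rw [smul_eq_mul, Derivation.leibniz, Derivation.leibniz, add_add_add_comm, ← smul_add,
      ← smul_add]
    exact add_mem (Ideal.mul_mem_left _ _ hs) (Ideal.mul_mem_right _ _ (F.ker.ge h1))

theorem rder_mem_ker {D : Derivation ℂ M M} (h : ∀ y ∈ F.k, D y = 0) {s : Ω ⊗[ℂ] M}
    (hs : s ∈ RingHom.ker (evT Ω F.ι)) : rder D s ∈ RingHom.ker (evT Ω F.ι) := by
  have h1 := F.add_mem_ker (d := 0) (D := D) (fun y hy => by simp [h y hy]) hs
  rwa [lder_zero, zero_add] at h1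

theorem lder_mem_ker {d : Derivation ℂ Ω Ω} (h : ∀ y ∈ F.k, d (F.e y) = 0) {s : Ω ⊗[ℂ] M}
    (hs : s ∈ RingHom.ker (evT Ω F.ι)) : lder d s ∈ RingHom.ker (evT Ω F.ι) := by
  have h1 := F.add_mem_ker (d := d) (D := 0) (fun y hy => by simp [h y hy]) hs
  rwa [rder_zero, add_zero] at h1

/-- A pair of derivations that agree on `k` preserves the kernel. -/
theorem pres (d : Derivation ℂ Ω Ω) (D : Derivation ℂ M M)
    (h : ∀ y ∈ F.k, D y ∈ F.k ∧ d (F.e y) = F.e (D y)) {s : Ω ⊗[ℂ] M} (hs : evT Ω F.ι s = 0) :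
    evT Ω F.ι (lder d s + rder D s) = 0 :=
  F.add_mem_ker (fun y hy => by rw [(h y hy).2, F.ι_k (h y hy).1]) hs

theorem fd_k {a : ℕ} (ha : 0 < a) : FiniteDimensional F.k (Submodule.span F.k (U a : Set M)) := by
  obtain ⟨t, h1, h2, h3⟩ := exists_linearIndependent F.k (U a : Set M)
  have := F.bd' ha
  have : Finite t := LinearIndependent.finite (R := Ω)
    (f := fun i : t => (⟨F.ι i, Submodule.subset_span ⟨i, h1 i.2, rfl⟩⟩ :
      Submodule.span Ω (F.ι '' U a))) (.of_comp (Submodule.subtype _) (F.indep h3))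
  exact h2 ▸ FiniteDimensional.span_of_finite _ (Set.toFinite t)

/-- Derivations that agree on a transcendence basis of the base agree on the base. -/
theorem agree {J : Type} {y : J → F.k} (hy : IsTranscendenceBasis ℂ y) {d : Derivation ℂ Ω Ω}
    {D : Derivation ℂ M M} (h : ∀ i, D (y i) ∈ F.k ∧ d (F.e (y i)) = F.e (D (y i))) (f : M)
    (hf : f ∈ F.k) : D f ∈ F.k ∧ d (F.e f) = F.e (D f) := by
  obtain ⟨δ, hδ⟩ := KBA.W_der_basis hy fun i => ⟨_, (h i).1⟩
  let : Algebra F.k Ω := (F.e.comp F.k.val).toRingHom.toAlgebra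
  have : IsScalarTower ℂ F.k Ω :=
    .of_algebraMap_eq fun r => ((F.e.comp F.k.val).commutes r).symm
  have h1 : D f = (δ ⟨f, hf⟩ : F.k) := sub_eq_zero.1 <|
    der_eq_zero hy (D.compAlgebraMap F.k - (Algebra.linearMap F.k M).compDer δ)
      (fun i => sub_eq_zero.2 (congrArg Subtype.val (hδ i)).symm) ⟨f, hf⟩
  rw [h1]
  exact ⟨(δ ⟨f, hf⟩).2, sub_eq_zero.1 <|
    der_eq_zero hy (d.compAlgebraMap F.k - (Algebra.linearMap F.k Ω).compDer δ)
      (fun i => sub_eq_zero.2 ((h i).2.trans (congrArg (fun z : F.k => F.e z) (hδ i)).symm))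
      ⟨f, hf⟩⟩

end Fib

end fib

variable {K M ι : Type} [Field K] [Algebra ℂ K] [Field M] [Algebra ℂ M] [Algebra K M]
  [IsScalarTower ℂ K M] [Fintype ι] {n : ℕ}

theorem exists_geo (S : Su K M ι n) (Ω : Type) [Field Ω] [Algebra ℂ Ω] [IsAlgClosed Ω]
    (hΩ : Cardinal.aleph0 ≤ Algebra.trdeg ℂ Ω) :
    ∃ (E : Type) (_ : Field E) (_ : Algebra ℂ E) (_ : Algebra Ω E) (_ : IsScalarTower ℂ Ω E)
      (b φ : ℕ), Nonempty (Geo S Ω E b φ) := by
  have := S.essFin
  obtain ⟨E, _, _, _, _, ⟨F⟩⟩ := exists_fib hΩ S.U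
  have h1 := trdeg_lt_aleph0 ℂ M
  rw [← trdeg_add_eq ℂ F.k, add_lt_aleph0_iff] at h1
  obtain ⟨b, y, hy⟩ := exists_finTB _ _ h1.1
  obtain ⟨φ, z, hz⟩ := exists_finTB _ _ h1.2
  have h2 : IsTranscendenceBasis ℂ (Sum.elim (fun i => (y i : M)) z) :=
    (isTranscendenceBasis_equiv' (Equiv.sumComm _ _) (by funext o; cases o <;> rfl)).2
      (hy.sumElim_comp hz)
  obtain ⟨D, hD⟩ := TCI.exists_dual _ h2
  obtain ⟨ε⟩ := Cardinal.eq.1 (S.tb_basis.cardinalMk_eq h2)
  refine ⟨E, _, _, _, inferInstance, b, φ,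
    ⟨⟨F, hΩ, fun i => y i, fun i => (y i).2, fun f hf => ?_, z, D, ⟨h2, hD⟩, ε⟩⟩⟩
  have h3 := (hy.isAlgebraic.isAlgebraic ⟨f, hf⟩).ringHom_of_comp_eq
    ((F.k.val.subalgebraMap _).toRingHom) F.k.val.toRingHom
    (fun a b hab => Subtype.ext (Subtype.ext (Subtype.ext_iff.1 hab :))) rfl
  rwa [AlgHom.map_adjoin, ← Set.range_comp] at h3

namespace Geo

variable {S : Su K M ι n} {Ω E : Type} [Field Ω] [Algebra ℂ Ω] [Field E] [Algebra ℂ E] [Algebra Ω E]
  [IsScalarTower ℂ Ω E] {b φ : ℕ} (G : Geo S Ω E b φ)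

theorem gen_E (j : ι) :
    IntermediateField.adjoin Ω (Set.range fun o => G.ι (S.gen j o)) = ⊤ := by
  have h := G.adjoin_top (S.gen_top j)
  rwa [← Set.range_comp] at h

omit [IsScalarTower ℂ K M] [Fintype ι]

theorem y_ind : AlgebraicIndependent ℂ G.y := G.frame.tb.1.comp Sum.inl Sum.inl_injective

theorem ey_ind : AlgebraicIndependent ℂ fun i => G.e (G.y i) := G.y_ind.map' G.e.injective

include G in
theorem card : b + φ = n + 1 := by
  simpa using (Fintype.card_congr G.ε).symm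

theorem y_basis : IsTranscendenceBasis ℂ fun i => (⟨G.y i, G.y_mem i⟩ : G.k) := by
  have h1 : AlgebraicIndependent ℂ fun i => (⟨G.y i, G.y_mem i⟩ : G.k) :=
    .of_comp G.k.val (G.frame.tb.1.comp Sum.inl Sum.inl_injective)
  refine h1.isTranscendenceBasis_iff_isAlgebraic.2 ⟨fun f => ?_⟩
  refine IsAlgebraic.of_ringHom_of_comp_eq ((G.k.val.subalgebraMap _).toRingHom)
    G.k.val.toRingHom ?_ (G.k.val.subalgebraMap_surjective _) Subtype.val_injective rfl
  rw [AlgHom.map_adjoin, ← Set.range_comp]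
  exact G.y_alg f f.2

theorem trdeg_k : Algebra.trdeg ℂ G.k = b := by
  rw [← G.y_basis.cardinalMk_eq_trdeg, mk_fin]

/-- A derivation that kills `y` kills `k`. -/
theorem der_k {D : Derivation ℂ M M} (h : ∀ i, D (G.y i) = 0) {f : M} (hf : f ∈ G.k) : D f = 0 :=
  der_eq_zero G.y_basis (D.compAlgebraMap G.k) h ⟨f, hf⟩

theorem pres_of_kill {D : Derivation ℂ M M} (h : ∀ i, D (G.y i) = 0) {s : Ω ⊗[ℂ] M}
    (hs : evT Ω G.ι s = 0) : evT Ω G.ι (rder D s) = 0 :=
  G.rder_mem_ker (fun _ => G.der_k h) hs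

/-- Commuting derivations of `Ω` that lift the derivations of the base. -/
theorem exists_left : ∃ d : Fin b → Derivation ℂ Ω Ω, Comm d ∧
    (∀ i l, d i (G.e (G.y l)) = if i = l then 1 else 0) ∧
    ∀ (i : Fin b) (D : Derivation ℂ M M), (∀ l, D (G.y l) = if i = l then 1 else 0) →
      ∀ s : Ω ⊗[ℂ] M, evT Ω G.ι s = 0 → evT Ω G.ι (lder (d i) s + rder D s) = 0 := by
  classical
  obtain ⟨t, ht, hb⟩ := exists_isTranscendenceBasis_superset G.ey_ind.to_subtype_range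
  obtain ⟨d, hd⟩ := TCI.exists_dual _ hb
  have h1 : ∀ i l, d ⟨_, ht ⟨i, rfl⟩⟩ (G.e (G.y l)) = if i = l then 1 else 0 := fun i l =>
    (hd _ ⟨_, ht ⟨l, rfl⟩⟩).trans (if_congr (Subtype.ext_iff.trans G.ey_ind.injective.eq_iff) rfl rfl)
  refine ⟨fun i => d ⟨_, ht ⟨i, rfl⟩⟩, fun i l => Frame.comm ⟨hb, hd⟩ _ _, h1,
    fun i D hD s hs => G.pres _ _ (G.agree G.y_basis fun l => ?_) hs⟩
  change D (G.y l) ∈ G.k ∧ d _ (G.e (G.y l)) = G.e (D (G.y l))
  rw [h1, hD]
  split_ifs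
  exacts [⟨one_mem _, (map_one _).symm⟩, ⟨zero_mem _, (map_zero _).symm⟩]

theorem z_basis {z : Fin φ → M} (h : IsTranscendenceBasis ℂ (Sum.elim G.y z)) :
    IsTranscendenceBasis G.k z := by
  have h1 := trdeg_add_eq ℂ G.k (A := M)
  rw [← G.y_basis.cardinalMk_eq_trdeg, ← h.cardinalMk_eq_trdeg, mk_sum, lift_id, lift_id,
    mk_fin] at h1
  have h2 : ∀ f ∈ Algebra.adjoin ℂ (Set.range (Sum.elim G.y z)),
      f ∈ Algebra.adjoin G.k (Set.range z) := fun f hf => by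
    refine (Algebra.adjoin_le
      (S := (Algebra.adjoin G.k (Set.range z)).restrictScalars ℂ) ?_) hf
    rintro _ ⟨i | c, rfl⟩
    · exact (Algebra.adjoin G.k (Set.range z)).algebraMap_mem ⟨_, G.y_mem i⟩
    · exact Algebra.subset_adjoin (R := G.k) (s := Set.range z) ⟨c, rfl⟩
  have : Algebra.IsAlgebraic (Algebra.adjoin G.k (Set.range z)) M :=
    ⟨fun f => (h.isAlgebraic.isAlgebraic f).ringHom_of_comp_eq
      ((Subalgebra.val _).toRingHom.codRestrict _ fun f => h2 f f.2) (RingHom.id M)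
      (fun _ _ hab => Subtype.ext (Subtype.ext_iff.1 hab :)) rfl⟩
  exact Algebra.IsAlgebraic.isTranscendenceBasis_of_le_trdeg_of_finite G.k z
    (Cardinal.eq_of_add_eq_add_left h1 natCast_lt_aleph0).ge

theorem tb_E {z : Fin φ → M} (h : IsTranscendenceBasis ℂ (Sum.elim G.y z)) :
    IsTranscendenceBasis Ω fun c => G.ι (z c) := G.isTB (G.z_basis h)

include G in
theorem trdeg_E : Algebra.trdeg Ω E = φ := by
  rw [← (G.tb_E G.frame.tb).cardinalMk_eq_trdeg, mk_fin]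

/-- The derivations along the fibre descend. -/
theorem exists_der_E {D : Derivation ℂ M M} (h : ∀ i, D (G.y i) = 0) :
    ∃ D' : Derivation Ω E E, ∀ f, D' (G.ι f) = G.ι (D f) := by
  have : CharZero Ω := charZero_of_injective_algebraMap (algebraMap ℂ Ω).injective
  obtain ⟨D', hD⟩ := KBA.W_der_basis (G.tb_E G.frame.tb) fun c => G.ι (D (G.z₀ c))
  let : Algebra M E := G.ι.toRingHom.toAlgebra
  have : IsScalarTower ℂ M E := .of_algebraMap_eq fun r => (G.ι.commutes r).symm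
  refine ⟨D', fun f => sub_eq_zero.1 <| der_eq_zero G.frame.tb
    ((D'.restrictScalars ℂ).compAlgebraMap M - (Algebra.linearMap M E).compDer D) ?_ f⟩
  rintro (i | c)
  · change D' (G.ι (G.y i)) - G.ι (D (G.y i)) = 0
    rw [h, G.ι_k (G.y_mem i), D'.map_algebraMap, map_zero, sub_zero]
  · exact sub_eq_zero.2 (hD c)

end Geo

end Pool.Agent.Lib.MP_bc213e_ag.DD
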