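import Pool.Agent.Lib.MP_bc213e_ag.DB.GKL

/-! Linear Noether normalisation and the finiteness of the integral closure, over any field. -/

namespace Pool.Agent.Lib.MP_bc213e_ag.DB

open MvPolynomial IntermediateField

variable {𝕜 K κ κ' : Type} [Field 𝕜] [CharZero 𝕜] [Field K] [Algebra 𝕜 K] {n : ℕ}

omit [CharZero 𝕜] in
theorem fd_of_gen [Finite κ] (x : κ → K) (gen : adjoin 𝕜 (Set.range x) = ⊤) (y : Fin n → K)
    (hy : IsTranscendenceBasis 𝕜 y) : FiniteDimensional (adjoin 𝕜 (Set.range y)) K := by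
  have := hy.isAlgebraic_field
  have h := finiteDimensional_adjoin (K := adjoin 𝕜 (Set.range y)) (S := Set.range x)
    fun a _ => (Algebra.IsAlgebraic.isAlgebraic a).isIntegral
  rw [adjoin_eq_top_of_adjoin_eq_top 𝕜 gen] at h
  exact topEquiv.toLinearEquiv.finiteDimensional

theorem exists_primitive (x : κ → K) (gen : adjoin 𝕜 (Set.range x) = ⊤)
    (F : IntermediateField 𝕜 K) [FiniteDimensional F K] :
    ∃ z ∈ Submodule.span 𝕜 (Set.range x), adjoin F {z} = ⊤ := by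
  have : CharZero F := charZero_of_injective_algebraMap (algebraMap 𝕜 F).injective
  have h1 : Algebra.adjoin F (Set.range x) = ⊤ :=
    (adjoin_eq_top_iff_of_isAlgebraic fun a _ => Algebra.IsAlgebraic.isAlgebraic a).1
      (adjoin_eq_top_of_adjoin_eq_top 𝕜 gen)
  obtain ⟨z, hz⟩ := Submodule.exists_forall_notMem_of_forall_ne_top
    (fun p : {p : (K →ₐ[F] AlgebraicClosure F) × (K →ₐ[F] AlgebraicClosure F) // p.1 ≠ p.2} =>
      (LinearMap.eqLocus (p.1.1.toLinearMap.restrictScalars 𝕜)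
        (p.1.2.toLinearMap.restrictScalars 𝕜)).comap (Submodule.span 𝕜 (Set.range x)).subtype)
    fun p hp => p.2 (AlgHom.ext_of_adjoin_eq_top h1 fun a ha =>
      (hp.ge (Submodule.mem_top (x := ⟨a, Submodule.subset_span ha⟩)) :))
  refine ⟨z, z.2, (Field.primitive_element_iff_algHom_eq_of_eval' F (AlgebraicClosure F)
    (fun _ => IsAlgClosed.splits _) _).2 fun σ σ' h => ?_⟩
  by_contra hne
  exact hz ⟨(σ, σ'), hne⟩ h

theorem cd_basis (y : Fin n → K) (hy : AlgebraicIndependent 𝕜 y)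
    [FiniteDimensional (adjoin 𝕜 (Set.range y)) K] {δ c : ℕ}
    (b : Module.Basis (Fin δ) (adjoin 𝕜 (Set.range y)) K) (hb1 : ∀ j, b j ∈ Bd 𝕜 y c) :
    ∃ (e : K) (c₀ : ℕ), e ≠ 0 ∧ ∀ μ, ∀ r ∈ Bd 𝕜 y μ, ∃ p : Fin δ → MvPolynomial (Fin n) 𝕜,
      (∀ j, (p j).totalDegree ≤ μ + c₀) ∧ e * r = ∑ j, aeval y (p j) * b j := by
  classical
  have : CharZero (adjoin 𝕜 (Set.range y)) :=
    charZero_of_injective_algebraMap (algebraMap 𝕜 _).injective
  choose G₀ _ hG using fun i j => kl_trace y hy (mul_mem_Bd y (hb1 i) (hb1 j))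
  have hG' : (aeval y).toRingHom.mapMatrix (Matrix.of G₀) =
      (algebraMap (adjoin 𝕜 (Set.range y)) K).mapMatrix (Algebra.traceMatrix _ b) :=
    Matrix.ext fun i j => hG i j
  refine ⟨algebraMap (adjoin 𝕜 (Set.range y)) K (Algebra.discr _ b),
    c + Finset.univ.sup fun q : Fin δ × Fin δ => ((Matrix.of G₀).adjugate q.1 q.2).totalDegree,
    (map_ne_zero _).2 (Algebra.discr_not_zero_of_basis _ b), fun μ r hr => ?_⟩
  choose t₀ ht1 ht using fun i => kl_trace y hy (mul_mem_Bd y hr (hb1 i))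
  refine ⟨(Matrix.of G₀).adjugate.mulVec t₀, fun j => ?_, ?_⟩
  · refine totalDegree_finsetSum_le fun i _ => (totalDegree_mul _ _).trans ?_
    have h1 := Finset.le_sup (f := fun q : Fin δ × Fin δ =>
      ((Matrix.of G₀).adjugate q.1 q.2).totalDegree) (Finset.mem_univ (j, i))
    have h2 := ht1 i
    dsimp only at h1 ⊢
    omega
  · have h1 : (aeval y).toRingHom ∘ t₀ = algebraMap (adjoin 𝕜 (Set.range y)) K ∘
        (Algebra.traceMatrix _ b).mulVec (b.equivFun r) := by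
      rw [Algebra.traceMatrix_of_basis_mulVec]
      exact funext ht
    conv_lhs => rw [← b.sum_equivFun r, Finset.mul_sum]
    refine Finset.sum_congr rfl fun j _ => ?_
    have h2 := RingHom.map_mulVec (aeval y).toRingHom (Matrix.of G₀).adjugate t₀ j
    rw [← RingHom.mapMatrix_apply, RingHom.map_adjugate, hG', ← RingHom.map_adjugate, h1,
      RingHom.mapMatrix_apply, ← RingHom.map_mulVec, Matrix.mulVec_mulVec, Matrix.adjugate_mul,
      Matrix.smul_mulVec, Matrix.one_mulVec, Pi.smul_apply, smul_eq_mul, map_mul] at h2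
    rw [Algebra.smul_def, ← mul_assoc]
    exact congrArg (· * b j) h2.symm

/-- Noether normalisation inside the span of `x`, when the field is generated by elements `w` whose
poles are bounded by those of `x`. -/
theorem gcd [Fintype κ] [Fintype κ'] (x : κ → K) (w : κ' → K) (hw : ∀ i, ∃ c, w i ∈ Bd 𝕜 x c)
    (gen : adjoin 𝕜 (Set.range w) = ⊤) (dim : Algebra.trdeg 𝕜 K = n) :
    ∃ y : Fin n → K, (∀ l, y l ∈ Submodule.span 𝕜 (Set.range x)) ∧ IsTranscendenceBasis 𝕜 y ∧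
      (∀ i, x i ∈ Bd 𝕜 y 1) ∧ FiniteDimensional (adjoin 𝕜 (Set.range y)) K ∧
      ∃ (δ c₀ : ℕ) (b : Fin δ → K), ∀ μ, ∀ r ∈ Bd 𝕜 y μ, ∃ p : Fin δ → MvPolynomial (Fin n) 𝕜,
        (∀ j, (p j).totalDegree ≤ μ + c₀) ∧ r = ∑ j, aeval y (p j) * b j := by
  classical
  obtain ⟨κ₀, _, y₀, h1, h2, h3⟩ := nn_ind (𝕜 := 𝕜) _ κ x rfl
  have h4 : IsTranscendenceBasis 𝕜 y₀ := by
    refine h2.isTranscendenceBasis_iff_isAlgebraic.2 ⟨fun z => ?_⟩
    have hz : z ∈ adjoin 𝕜 (Set.range w) := gen ▸ mem_top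
    induction hz using adjoin_induction with
    | mem z hz =>
      obtain ⟨i, rfl⟩ := hz
      obtain ⟨c, hc⟩ := hw i
      exact (nn_int y₀ (Bd_le_Bd x y₀ h3 c hc)).isAlgebraic
    | algebraMap c =>
      exact isAlgebraic_algebraMap (R := Algebra.adjoin 𝕜 (Set.range y₀))
        ⟨_, Subalgebra.algebraMap_mem _ c⟩
    | add a b _ _ ha hb => exact ha.add hb
    | inv a _ ha => exact ha.inv
    | mul a b _ _ ha hb => exact ha.mul hb
  have h5 : Fintype.card κ₀ = n := by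
    have := h4.cardinalMk_eq_trdeg
    rw [dim, Cardinal.mk_fintype] at this
    exact_mod_cast this
  let ε := Fintype.equivFinOfCardEq h5
  have hy : IsTranscendenceBasis 𝕜 (y₀ ∘ ε.symm) := (isTranscendenceBasis_equiv ε.symm).2 h4
  have hx : ∀ i, x i ∈ Bd 𝕜 (y₀ ∘ ε.symm) 1 := fun i => Bd_le_Bd y₀ _ (fun l =>
    span_le_Bd _ (Submodule.subset_span ⟨ε l, congrArg y₀ (ε.symm_apply_apply l)⟩)) 1 (h3 i)
  have hs : ∀ l, (y₀ ∘ ε.symm) l ∈ Submodule.span 𝕜 (Set.range x) := fun l => h1 _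
  generalize y₀ ∘ ε.symm = y at hy hx hs
  have fd := fd_of_gen w gen y hy
  obtain ⟨z, hz1, hz⟩ := exists_primitive w gen (adjoin 𝕜 (Set.range y))
  choose c hc using hw
  have hz2 : z ∈ Bd 𝕜 y (Finset.univ.sup c) := by
    refine Submodule.span_le.2 ?_ hz1
    rintro _ ⟨i, rfl⟩
    exact Bd_mono y (Finset.le_sup (Finset.mem_univ i)) (Bd_le_Bd x y hx _ (hc i))
  obtain ⟨δ, b, hb⟩ : ∃ (δ : ℕ) (b : Module.Basis (Fin δ) (adjoin 𝕜 (Set.range y)) K),
      ∀ j, b j = z ^ (j : ℕ) := by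
    let pb := PowerBasis.ofAdjoinEqTop (IsIntegral.of_finite (adjoin 𝕜 (Set.range y)) z)
      ((adjoin_eq_top_iff_of_isAlgebraic fun a _ => Algebra.IsAlgebraic.isAlgebraic a).1 hz)
    exact ⟨pb.dim, pb.basis, fun j => by rw [pb.basis_eq_pow, PowerBasis.ofAdjoinEqTop_gen]⟩
  obtain ⟨e, c₀, he, h⟩ := cd_basis y hy.1 b (c := Finset.univ.sup c * δ) fun j => by
    rw [hb]
    exact Bd_mono y (Nat.mul_le_mul_left _ j.2.le) (pow_mem_Bd y hz2 j)
  refine ⟨y, hs, hy, hx, fd, δ, c₀, fun j => b j / e, fun μ r hr => ?_⟩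
  obtain ⟨p, hp, hr⟩ := h μ r hr
  refine ⟨p, hp, mul_left_cancel₀ he ?_⟩
  rw [hr, Finset.mul_sum]
  exact Finset.sum_congr rfl fun j _ => by field_simp

omit [CharZero 𝕜] in
theorem aeval_mem_pow {σ : Type} (V : Submodule 𝕜 K) (h1 : (1 : K) ∈ V) (Y : σ → K)
    (hY : ∀ l, Y l ∈ V) (q : MvPolynomial σ 𝕜) {d : ℕ} (hq : q.totalDegree ≤ d) :
    aeval Y q ∈ V ^ d := by
  have key : ∀ (m : σ →₀ ℕ) (s : Finset σ), ∏ i ∈ s, Y i ^ m i ∈ V ^ ∑ i ∈ s, m i := by
    intro m s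
    classical
    induction s using Finset.induction_on with
    | empty => simp
    | insert i s hi ih =>
      rw [Finset.prod_insert hi, Finset.sum_insert hi, pow_add]
      exact Submodule.mul_mem_mul (Submodule.pow_mem_pow V (hY i) _) ih
  rw [q.as_sum, map_sum]
  refine Submodule.sum_mem _ fun m hm => ?_
  rw [aeval_monomial, ← Algebra.smul_def]
  exact Submodule.smul_mem _ _ (pow_le_pow_right' (Submodule.one_le.2 h1)
    ((le_totalDegree hm).trans hq) (key m _))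

/-- The growth of the spaces `Bd`. -/
theorem gcd_dim [Fintype κ] [Fintype κ'] (x : κ → K) (w : κ' → K) (hw : ∀ i, ∃ c, w i ∈ Bd 𝕜 x c)
    (gen : adjoin 𝕜 (Set.range w) = ⊤) (dim : Algebra.trdeg 𝕜 K = n) :
    ∃ B : ℕ, ∀ μ, FiniteDimensional 𝕜 (Bd 𝕜 x μ) ∧
      Module.finrank 𝕜 (Bd 𝕜 x μ) ≤ B * (μ + 1) ^ n := by
  obtain ⟨y, -, -, hx, -, δ, c₀, z, h⟩ := gcd x w hw gen dim
  refine ⟨δ * (c₀ + 1) ^ n, fun μ => ?_⟩
  let b : Fin δ × (Fin n → Fin (μ + c₀ + 1)) → K := fun a => (∏ l, y l ^ (a.2 l : ℕ)) * z a.1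
  have : FiniteDimensional 𝕜 (Submodule.span 𝕜 (Set.range b)) :=
    FiniteDimensional.span_of_finite 𝕜 (Set.finite_range b)
  have hle : Bd 𝕜 x μ ≤ Submodule.span 𝕜 (Set.range b) := fun r hr => by
    obtain ⟨p, hp, hr⟩ := h μ r (Bd_le_Bd x y hx μ hr)
    rw [hr]
    refine Submodule.sum_mem _ fun j _ => ?_
    rw [(p j).as_sum, map_sum, Finset.sum_mul]
    refine Submodule.sum_mem _ fun m hm => ?_
    rw [aeval_monomial, ← Algebra.smul_def, smul_mul_assoc, Finsupp.prod_fintype _ _ (by simp)]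
    refine Submodule.smul_mem _ _ (Submodule.subset_span ⟨(j, fun l => ⟨m l, ?_⟩), rfl⟩)
    exact Nat.lt_succ_of_le (((monomial_le_degreeOf l hm).trans (degreeOf_le_totalDegree _ _)).trans
      (hp j))
  refine ⟨Submodule.finiteDimensional_of_le hle,
    (Submodule.finrank_mono hle).trans ((finrank_range_le_card b).trans ?_)⟩
  rw [Fintype.card_prod, Fintype.card_fun, Fintype.card_fin, Fintype.card_fin, Fintype.card_fin,
    mul_assoc, ← mul_pow]
  exact Nat.mul_le_mul_left _ (Nat.pow_le_pow_left (by nlinarith) _)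

/-- The spaces `Bd` lie in a finitely generated graded module. -/
theorem gcd_mod [Fintype κ] [Fintype κ'] (x : κ → K) (w : κ' → K) (hw : ∀ i, ∃ c, w i ∈ Bd 𝕜 x c)
    (gen : adjoin 𝕜 (Set.range w) = ⊤) (dim : Algebra.trdeg 𝕜 K = n) (V : Submodule 𝕜 K)
    (hV : V.FG) (h1 : (1 : K) ∈ V) (hx : ∀ i, x i ∈ V) :
    ∃ M₀ : Submodule 𝕜 K, M₀.FG ∧ ∀ μ, Bd 𝕜 x μ ≤ V ^ μ * M₀ := by
  obtain ⟨y, hy, -, hx', -, δ, c₀, z, h⟩ := gcd x w hw gen dim
  have hV' : Submodule.span 𝕜 (Set.range x) ≤ V := Submodule.span_le.2 (Set.range_subset_iff.2 hx)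
  refine ⟨V ^ c₀ * Submodule.span 𝕜 (Set.range z),
    (hV.pow c₀).mul (Submodule.fg_span (Set.finite_range z)), fun μ r hr => ?_⟩
  obtain ⟨p, hp, hr⟩ := h μ r (Bd_le_Bd x y hx' μ hr)
  rw [hr, ← mul_assoc, ← pow_add]
  exact Submodule.sum_mem _ fun j _ => Submodule.mul_mem_mul
    (aeval_mem_pow V h1 y (fun l => hV' (hy l)) _ (hp j)) (Submodule.subset_span ⟨j, rfl⟩)

end Pool.Agent.Lib.MP_bc213e_ag.DB
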