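import Pool.Agent.Lib.MP_bc213e_ag.KBD.Lift
import Pool.Agent.Lib.MP_bc213e_ag.KBD.Cen

/-! Uniform generation of `t L + a H` at one point. -/

namespace Pool.Agent.Lib.MP_bc213e_ag.DD

open Pool.Agent.Lib.MP_bc213e_ag.Hyp Pool.Agent.Lib.MP_bc213e_ag.KBB

variable {K ι : Type} [Field K] [Algebra ℂ K] [Fintype ι] {x g : ι → Kˣ}

theorem pf_const (j : ι) (𝔪 : Ideal (chart x j)) [𝔪.IsMaximal] (r : chart x j) :
    ∃ c : ℂ, r - algebraMap ℂ _ c ∈ 𝔪 := by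
  have : Algebra.FiniteType ℂ (chart x j) := Algebra.FiniteType.adjoin_of_finite (Set.finite_range _)
  let _ := Ideal.Quotient.field 𝔪
  have : Module.Finite ℂ (chart x j ⧸ 𝔪) := finite_of_finite_type_of_isJacobsonRing _ _
  obtain ⟨c, hc⟩ := (IsAlgClosed.algebraMap_bijective_of_isIntegral (k := ℂ)
    (K := chart x j ⧸ 𝔪)).2 (Ideal.Quotient.mk 𝔪 r)
  exact ⟨c, Ideal.Quotient.eq.1 hc.symm⟩

/-- Sketch: take a maximal ideal `𝔪 ≥ 𝔭` and a valuation subring `O` of `K` that contains the chart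
and has centre `𝔪` (`Ideal.image_subset_nonunits_valuationSubring` or
`LocalSubring.exists_le_valuationSubring`). Each `x l / x j` is congruent to a constant modulo `𝔪`
(Nullstellensatz), so the field `F` of `KBD.exists_rd_cen` consists of constants, and `1` is a
section on it. Lift it by `KBD.lift_sec`. -/
theorem pf (hc : Cart x g) (hn : Nef x g) (j : ι) (𝔭 : Ideal (chart x j)) (hp : 𝔭 ≠ ⊤) :
    ∃ a : ℕ, 0 < a ∧ ∀ t : ℕ, ∃ r : chart x j, r ∉ 𝔭 ∧ Sec x g t a (r * fr x g t a j) := by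
  obtain ⟨𝔪, hm, hle⟩ := 𝔭.exists_le_maximal hp
  obtain ⟨O, h1, h2⟩ := Ideal.image_subset_nonunits_valuationSubring (A := (chart x j).toSubring)
    𝔪 hm.ne_top
  have h3 : ∀ r ∈ 𝔪, O.valuation (r : K) < 1 := fun r hr =>
    O.mem_nonunits_iff.1 (h2 ⟨r, hr, rfl⟩)
  have hx : ∀ l, (x l : K) / x j ∈ O := fun l => h1 (Basic_mem x j l)
  obtain ⟨F1, _, _, ⟨ρ⟩⟩ := KBD.exists_rs O fun z => h1 ((chart x j).algebraMap_mem z)
  obtain ⟨R, hi, hR⟩ := KBD.exists_rd_cen ρ hc hx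
  have hF : IntermediateField.adjoin ℂ (Set.range fun l => ρ.res ((x l : K) / x j)) ≤ ⊥ := by
    refine IntermediateField.adjoin_le_iff.2 ?_
    rintro _ ⟨l, rfl⟩
    obtain ⟨c, hc⟩ := pf_const j 𝔪 ⟨_, Basic_mem x j l⟩
    have h4 : ρ.res ((x l : K) / x j - algebraMap ℂ K c) = 0 :=
      (ρ.ker _ (sub_mem (hx l) (ρ.hC c))).2 (h3 _ hc)
    rw [map_sub, ρ.res_c, sub_eq_zero] at h4
    exact IntermediateField.mem_bot.2 ⟨c, h4.symm⟩
  have hz : ∀ i z, z ∈ chart R.x' i := fun i z => by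
    obtain ⟨c, hc⟩ := IntermediateField.mem_bot.1 (hF z.2)
    rw [show z = algebraMap ℂ _ c from Subtype.ext hc.symm]
    exact Subalgebra.algebraMap_mem _ c
  obtain ⟨a, ha⟩ := KBD.lift_sec hc hn R
  refine ⟨a + 1, a.succ_pos, fun t => ?_⟩
  obtain ⟨s, hs, e⟩ := ha t (a + 1) a.le_succ 1 fun i => hz i _
  rw [hi] at e
  refine ⟨⟨s / fr x g t (a + 1) j, hs j⟩, fun h => ?_, ?_⟩
  · have h5 := hR (s / fr x g t (a + 1) j) (R.le R.i₀ _ (by rw [hi]; exact hs j))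
    have h6 := (ρ.ker _ h5.1).2 (h3 _ (hle h))
    have h7 : (R.ρ (s / fr x g t (a + 1) j) : F1) = 0 := h5.2.trans h6
    rw [e] at h7
    exact one_ne_zero h7
  · rwa [div_mul_cancel₀ _ (fr_ne _ _ _ _ _)]

end Pool.Agent.Lib.MP_bc213e_ag.DD
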