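import Pool.Agent.Lib.MP_bc213e_ag.DB.Fibre0
import Pool.Agent.Lib.MP_bc213e_ag.DB.PF
import Pool.Agent.Lib.MP_bc213e_ag.DB.GCD
import Pool.Agent.Lib.MP_bc213e_ag.KBN.Noeth

/-! Finite generation of the section ring of the fibre. -/

namespace Pool.Agent.Lib.MP_bc213e_ag.DD.Geo

open Pool.Agent.Lib.MP_bc213e_ag.Hyp Module
open scoped TensorProduct

variable {K M ι : Type} [Field K] [Algebra ℂ K] [Field M] [Algebra ℂ M] [Algebra K M] {n : ℕ}
  {S : Su K M ι n} {Ω E : Type} [Field Ω] [Algebra ℂ Ω] [Field E] [Algebra ℂ E] [Algebra Ω E]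
  [IsScalarTower ℂ Ω E] {b φ : ℕ} (G : Geo S Ω E b φ)

theorem fibre_indep {k F : Type} [Field k] [Field F] [Algebra k F] (O : ValuationSubring F)
    (hO : ∀ c : k, algebraMap k F c ∈ O) {w : ℕ → F} (h0 : ∀ t, w t ≠ 0)
    (h : Function.Injective fun t => O.valuation (w t)) : LinearIndependent k w := by
  classical
  have h1 : ∀ c : k, c ≠ 0 → ∀ z, O.valuation (c • z) = O.valuation z := fun c hc z => by
    have a1 := (O.valuation_le_one_iff _).2 (hO c)
    have a2 := (O.valuation_le_one_iff _).2 (hO c⁻¹)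
    rw [map_inv₀, map_inv₀, inv_le_one₀ (zero_lt_iff.2 (by simpa using hc))] at a2
    rw [Algebra.smul_def, map_mul, le_antisymm a1 a2, one_mul]
  refine linearIndependent_iff'.2 fun s g hs i hi => by_contra fun hg => ?_
  obtain ⟨j, hj, hm⟩ := s.exists_max_image (fun t => O.valuation (g t • w t)) ⟨i, hi⟩
  have h2 : 0 < O.valuation (g j • w j) :=
    lt_of_lt_of_le (by rw [h1 _ hg]; exact zero_lt_iff.2 (by simpa using h0 i)) (hm i hi)
  have h3 := O.valuation.map_sum_eq_of_lt (f := fun t => g t • w t) hj fun t ht => by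
    obtain ⟨t1, t2⟩ := Finset.mem_sdiff.1 ht
    refine lt_of_le_of_ne (hm t t1) fun e => t2 (Finset.mem_singleton.2 (h ?_))
    have g1 : g j ≠ 0 := fun e' => by simp [e'] at h2
    have g2 : g t ≠ 0 := fun e' => by simp [← e, e'] at h2
    rwa [h1 _ g1, h1 _ g2] at e
  rw [hs, map_zero] at h3
  exact h2.ne h3

theorem fibre_pow {k W κ : Type} [Field k] [CommRing W] [Algebra k W] [Fintype κ] [Nonempty κ]
    (x : κ → W) {N d : ℕ} (h : Fintype.card κ * N ≤ N + d) :
    Submodule.span k (Set.range x) ^ (N + d) ≤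
      Submodule.span k (Set.range fun j => x j ^ N) * Submodule.span k (Set.range x) ^ d := by
  classical
  have h1 : ∀ m, Submodule.span k (Set.range x) ^ m ≤
      Submodule.span k {z | ∃ e : κ → ℕ, ∑ j, e j = m ∧ ∏ j, x j ^ e j = z} := fun m => by
    induction m with
    | zero => exact Submodule.one_le.2 (Submodule.subset_span ⟨0, by simp, by simp⟩)
    | succ m ih =>
      rw [pow_succ]
      refine (mul_le_mul_left ih _).trans ?_
      rw [Submodule.span_mul_span]
      refine Submodule.span_mono ?_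
      rintro _ ⟨_, ⟨e, rfl, rfl⟩, _, ⟨l, rfl⟩, rfl⟩
      refine ⟨e + Pi.single l 1, by simp [Finset.sum_add_distrib], ?_⟩
      simp only [Pi.add_apply, pow_add, Finset.prod_mul_distrib]
      rw [Finset.prod_eq_single l (f := fun j => x j ^ (Pi.single l 1 : κ → ℕ) j)
        (fun b _ hb => by simp [hb]) (by simp)]
      simp
  have h2 : ∀ (e : κ → ℕ) (s : Finset κ),
      ∏ j ∈ s, x j ^ e j ∈ Submodule.span k (Set.range x) ^ ∑ j ∈ s, e j := fun e s => by
    induction s using Finset.induction_on with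
    | empty => simp [Submodule.one_le.1 le_rfl]
    | insert i s hi ih =>
      rw [Finset.prod_insert hi, Finset.sum_insert hi, pow_add]
      exact Submodule.mul_mem_mul
        (Submodule.pow_mem_pow _ (Submodule.subset_span (Set.mem_range_self i)) _) ih
  refine (h1 _).trans (Submodule.span_le.2 ?_)
  rintro _ ⟨e, he, rfl⟩
  obtain ⟨j, -, hj⟩ := Finset.exists_le_of_sum_le (s := Finset.univ) (f := fun _ => N) (g := e)
    Finset.univ_nonempty (by simpa [he] using h)
  obtain ⟨c, hc⟩ := Nat.exists_eq_add_of_le hj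
  have h3 := h2 e (Finset.univ.erase j)
  rw [← Finset.add_sum_erase _ _ (Finset.mem_univ j), hc, add_assoc, Nat.add_left_cancel_iff] at he
  rw [← Finset.mul_prod_erase _ _ (Finset.mem_univ j), hc, pow_add, mul_assoc, ← he, pow_add]
  exact Submodule.mul_mem_mul (Submodule.subset_span ⟨j, rfl⟩) (Submodule.mul_mem_mul
    (Submodule.pow_mem_pow _ (Submodule.subset_span (Set.mem_range_self j)) _) h3)

theorem fibre_gen (j l : ι) : G.ι (S.gen j (some l)) = G.X l / G.X j := map_div₀ G.ι _ _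

theorem fibre_mul (a a' : ℕ) : G.R a * G.R a' ≤ G.R (a + a') :=
  Submodule.mul_le.2 fun _ h _ h' => mul_mem_R h h'

theorem fibre_V : Submodule.span Ω (Set.range G.X) ≤ G.R 1 :=
  Submodule.span_le.2 (Set.range_subset_iff.2 G.X_mem_R)

theorem fibre_V_pow (a : ℕ) : Submodule.span Ω (Set.range G.X) ^ a ≤ G.R a := by
  induction a with
  | zero => exact Submodule.one_le.2 (G.one_mem_R 0)
  | succ a ih =>
    rw [pow_succ]
    exact (mul_le_mul' ih G.fibre_V).trans (G.fibre_mul a 1)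

variable [IsScalarTower ℂ K M] [Fintype ι]

/-- Sketch: `pf` for the centre of `O` on `chart x j` gives sections `s t` with
`ι (s t * u ^ t) = unit * ι (v j) ^ t * X j ^ a` in `R a`. If `ι (v j)` is not a unit these have
pairwise different values, so they are linearly independent over `Ω`, against `fd_R`. -/
theorem v_unit (O : ValuationSubring E) (hO : ∀ c : Ω, algebraMap Ω E c ∈ O) (j : ι)
    (hx : ∀ l, G.X l / G.X j ∈ O) : O.valuation (G.ι (S.v j)) = 1 := by
  let ρ : K →ₐ[ℂ] E := G.ι.comp (IsScalarTower.toAlgHom ℂ K M)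
  have hρ : ∀ r ∈ chart S.x j, ρ r ∈ O := fun r hr => by
    induction hr using Algebra.adjoin_induction with
    | mem z hz =>
      obtain ⟨l, rfl⟩ := hz
      rw [map_div₀]
      exact hx l
    | algebraMap c =>
      rw [AlgHom.commutes, IsScalarTower.algebraMap_apply ℂ Ω E]
      exact hO _
    | add a b _ _ ha hb => exact map_add ρ a b ▸ add_mem ha hb
    | mul a b _ _ ha hb => exact map_mul ρ a b ▸ mul_mem ha hb
  let f : chart S.x j →+* O :=
    (ρ.toRingHom.comp (chart S.x j).val.toRingHom).codRestrict O fun r => hρ r r.2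
  obtain ⟨a, -, h⟩ := pf S.cart S.nef j ((IsLocalRing.maximalIdeal O).comap f)
    (Ideal.comap_ne_top f (IsLocalRing.maximalIdeal.isMaximal O).ne_top)
  choose r hr hs using h
  have h1 : ∀ t, O.valuation (ρ (r t)) = 1 := fun t =>
    le_antisymm ((O.valuation_le_one_iff _).2 (hρ _ (r t).2))
      (not_lt.1 fun e => hr t ((O.valuation_lt_one_iff (f (r t))).2 e))
  have h2 : ∀ t, ρ (r t) * G.ι (S.v j) ^ t * G.X j ^ a ∈ G.R a := fun t => by
    have := G.ι_mem_R (S.V_le_U t a (S.sec_mem_V le_rfl (hs t)))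
    convert this using 1
    simp only [ρ, KBB.fr, Su.v, X, Su.X, zpow_natCast, map_mul, map_pow, AlgHom.comp_apply,
      IsScalarTower.toAlgHom_apply]
    ring
  have h3 : G.ι (S.v j) ≠ 0 := (map_ne_zero _).2 (S.v_ne j)
  have h4 : O.valuation (G.X j ^ a) ≠ 0 := (map_ne_zero _).2 (pow_ne_zero _ (G.X_ne j))
  by_contra hne
  have := G.fd_R a
  refine Module.Finite.not_linearIndependent_of_infinite (R := Ω)
    (fun t : ℕ => (⟨_, h2 t⟩ : G.R a)) (LinearIndependent.of_comp (G.R a).subtype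
      (fibre_indep O hO (w := fun t => ρ (r t) * G.ι (S.v j) ^ t * G.X j ^ a) (fun t => ?_)
        fun t t' e => ?_))
  · refine mul_ne_zero (mul_ne_zero (fun e => ?_) (pow_ne_zero _ h3)) (pow_ne_zero _ (G.X_ne j))
    simpa [e] using h1 t
  · simp only [map_mul, h1, one_mul, mul_left_inj' h4] at e
    rw [map_pow, map_pow] at e
    exact pow_right_injective₀ (zero_lt_iff.2 ((map_ne_zero _).2 h3)) hne e

theorem fibre_C_le (O : ValuationSubring E) (hO : ∀ c : Ω, algebraMap Ω E c ∈ O) (j : ι)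
    (hx : ∀ l, G.X l / G.X j ∈ O) {f : E} (hf : f ∈ G.C j) : f ∈ O := by
  induction hf using Algebra.adjoin_induction with
  | mem z hz =>
    obtain ⟨_ | l, rfl⟩ := hz
    · exact (O.valuation_le_one_iff _).1 (G.v_unit O hO j hx).le
    · simpa only [fibre_gen] using hx l
  | algebraMap c => exact hO c
  | add a b _ _ ha hb => exact add_mem ha hb
  | mul a b _ _ ha hb => exact mul_mem ha hb

/-- Choose `j` with `O.valuation (X j)` maximal; then `C j ≤ O`. -/
theorem R_le_Bd (a : ℕ) : G.R a ≤ DB.Bd Ω G.X a := by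
  intro w hw O c h1 _ _ h4
  obtain ⟨j, -, hj⟩ := Finset.univ.exists_max_image (fun l => O.valuation (G.X l))
    ⟨S.i₀, Finset.mem_univ _⟩
  have h5 := G.fibre_C_le O h1 j (fun l => (O.valuation_le_one_iff _).1 (by
    rw [map_div₀]
    exact div_le_one_of_le₀ (hj l (Finset.mem_univ _)) zero_le)) (div_mem_C hw j)
  have h6 := mul_mem h5 (pow_mem (h4 j) a)
  rwa [div_pow, div_mul_div_cancel₀ (pow_ne_zero _ (G.X_ne j))] at h6

theorem div_mem_Bd {a : ℕ} {w : E} (h : w ∈ G.R a) (j : ι) :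
    w / G.X j ^ a ∈ DB.Bd Ω (fun l => G.X l / G.X j) a := by
  intro O c h1 h2 _ h4
  have h5 := G.R_le_Bd a h O (G.X j * c) h1 (mul_ne_zero (G.X_ne j) h2)
    (by rw [← one_div, ← div_div, ← G.X_one]; exact h4 S.i₀)
    fun l => by simpa only [div_div] using h4 l
  rwa [mul_pow, ← div_div] at h5

/-- The inverse is integral over `Ω [X l / X j]`; multiply its equation by a power of `v`. -/
theorem v_inv_mem (j : ι) : (G.ι (S.v j))⁻¹ ∈ G.C j := by
  let v : (G.C j).toSubring := ⟨G.ι (S.v j), G.ι_mem_C (S.v_mem j)⟩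
  by_cases h : Ideal.span {v} = ⊤
  · obtain ⟨z, hz⟩ := (Ideal.span_singleton_eq_top.1 h).exists_right_inv
    rw [← eq_inv_of_mul_eq_one_right (congrArg Subtype.val hz :)]
    exact z.2
  obtain ⟨O, h1, h2⟩ := Ideal.image_subset_nonunits_valuationSubring _ h
  have h3 := O.mem_nonunits_iff.1 (h2 ⟨v, Ideal.mem_span_singleton_self v, rfl⟩)
  exact absurd (G.v_unit O (fun c => h1 ((G.C j).algebraMap_mem c)) j fun l =>
    h1 (G.fibre_gen j l ▸ G.ι_mem_C (S.gen_mem j _))) h3.ne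

theorem fibre_hw (o : Option ι) : ∃ c, G.ι (S.gen S.i₀ o) ∈ DB.Bd Ω G.X c := by
  obtain ⟨N, hN⟩ := G.homog (G.ι_mem_C (S.gen_mem S.i₀ o))
  refine ⟨N, G.R_le_Bd N ?_⟩
  simpa only [G.X_one, one_pow, one_mul] using hN N le_rfl

/-- `DB.gcd_dim` with `w o = ι (gen i₀ o)`. -/
theorem R_dim : ∃ B : ℕ, ∀ a, finrank Ω (G.R a) ≤ B * (a + 1) ^ φ := by
  have : CharZero Ω := charZero_of_injective_algebraMap (algebraMap ℂ Ω).injective
  obtain ⟨B, hB⟩ := DB.gcd_dim G.X _ G.fibre_hw (G.gen_E S.i₀) G.trdeg_E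
  refine ⟨B, fun a => ?_⟩
  have := (hB a).1
  exact (Submodule.finrank_mono (G.R_le_Bd a)).trans (hB a).2

/-- `DB.gcd_mod`, `KBN.noeth_gen`. -/
theorem R_gen : ∃ μ₀, ∀ a, μ₀ ≤ a →
    G.R (a + 1) ≤ Submodule.span Ω (Set.range G.X) * G.R a := by
  have : CharZero Ω := charZero_of_injective_algebraMap (algebraMap ℂ Ω).injective
  have hV := Submodule.fg_span (R := Ω) (Set.finite_range G.X)
  obtain ⟨M₀, h1, h2⟩ := DB.gcd_mod G.X _ G.fibre_hw (G.gen_E S.i₀) G.trdeg_E _ hV
    (Submodule.subset_span ⟨S.i₀, G.X_one⟩) fun i => Submodule.subset_span ⟨i, rfl⟩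
  exact KBN.noeth_gen hV h1 G.R (fun μ => (G.R_le_Bd μ).trans (h2 μ)) fun μ =>
    (mul_le_mul_left G.fibre_V _).trans (add_comm 1 μ ▸ G.fibre_mul 1 μ)

theorem R_add : ∃ μ₀, ∀ a a', μ₀ ≤ a → G.R (a + a') ≤ G.R a * G.R a' := by
  obtain ⟨μ₀, h⟩ := G.R_gen
  exact ⟨μ₀, fun a a' ha => (KBN.noeth_pow h ha a').trans
    ((mul_comm _ _).trans_le (mul_le_mul_right (G.fibre_V_pow a') _))⟩

theorem exists_m : ∃ m₁, ∀ m a, m₁ ≤ m →
    G.R a ≤ ((S.V m a).baseChange Ω).map (evT Ω G.ι).toLinearMap := by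
  simp only [map_baseChange]
  have mono : ∀ {m m'} (a), m ≤ m' →
      Submodule.span Ω (G.ι '' S.V m a) ≤ Submodule.span Ω (G.ι '' S.V m' a) := fun a h =>
    Submodule.span_mono (Set.image_mono (S.V_mono h le_rfl))
  have h1 : ∀ a, ∀ w ∈ G.R a, ∃ m, w ∈ Submodule.span Ω (G.ι '' S.V m a) := fun a w hw => by
    rw [R_eq] at hw
    induction hw using Submodule.span_induction with
    | mem z hz =>
      obtain ⟨f, hf, rfl⟩ := hz
      obtain ⟨m, hm⟩ := S.exists_V hf
      exact ⟨m, Submodule.subset_span ⟨f, hm, rfl⟩⟩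
    | zero => exact ⟨0, zero_mem _⟩
    | add y z _ _ hy hz =>
      obtain ⟨m, hm⟩ := hy
      obtain ⟨m', hm'⟩ := hz
      exact ⟨max m m', add_mem (mono a (le_max_left _ _) hm) (mono a (le_max_right _ _) hm')⟩
    | smul c z _ hz => exact hz.imp fun m hm => Submodule.smul_mem _ c hm
  have h2 : ∀ a, ∃ m, G.R a ≤ Submodule.span Ω (G.ι '' S.V m a) := fun a => by
    have := G.fd_R a
    obtain ⟨t, ht⟩ := (Submodule.fg_iff_finiteDimensional (G.R a)).2 this
    choose! m hm using h1 a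
    refine ⟨t.sup m, ht ▸ Submodule.span_le.2 fun w hw => ?_⟩
    exact mono a (Finset.le_sup hw) (hm w (ht ▸ Submodule.subset_span hw))
  choose m hm using h2
  obtain ⟨μ₀, h⟩ := G.R_gen
  refine ⟨(Finset.range (μ₀ + 1)).sup m, fun m' a hm' => ?_⟩
  induction a with
  | zero => exact (hm 0).trans (mono 0 ((Finset.le_sup (by simp)).trans hm'))
  | succ a ih =>
    by_cases ha : μ₀ ≤ a
    · refine (h a ha).trans ((mul_le_mul_right ih _).trans ?_)
      rw [Submodule.span_mul_span]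
      refine Submodule.span_mono ?_
      rintro _ ⟨_, ⟨l, rfl⟩, _, ⟨f, hf, rfl⟩, rfl⟩
      have := Su.mul_mem_V (S.X_mem_V l) hf
      rw [zero_add, add_comm] at this
      exact ⟨_, this, map_mul _ _ _⟩
    · exact (hm _).trans (mono _ ((Finset.le_sup (Finset.mem_range.2 (by omega))).trans hm'))

/-- A base point free subspace generates the section ring in high degree. -/
theorem genhi {W : Submodule Ω E} {a : ℕ} (hW : W ≤ G.R a)
    (h : ∀ j, (1 : E) ∈ Submodule.span (G.C j) ((fun w => w / G.X j ^ a) '' W)) :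
    ∃ a₀, ∀ a', a₀ ≤ a' → G.R (a' + a) ≤ W * G.R a' := by
  have up : ∀ N N', W * G.R N * G.R N' ≤ W * G.R (N + N') := fun N N' =>
    (mul_assoc _ _ _).trans_le (mul_le_mul_right (G.fibre_mul _ _) _)
  have h1 : ∀ j, ∀ z ∈ Submodule.span (G.C j) ((fun w => w / G.X j ^ a) '' W),
      ∃ N, ∀ N', N ≤ N' → G.X j ^ (N' + a) * z ∈ W * G.R N' := fun j z hz => by
    induction hz using Submodule.span_induction with
    | mem z hz =>
      obtain ⟨w, hw, rfl⟩ := hz
      refine ⟨0, fun N _ => ?_⟩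
      rw [pow_add, mul_assoc, mul_div_cancel₀ _ (pow_ne_zero _ (G.X_ne j)), mul_comm _ w]
      exact Submodule.mul_mem_mul hw (G.fibre_V_pow N
        (Submodule.pow_mem_pow _ (Submodule.subset_span (Set.mem_range_self j)) N))
    | zero => exact ⟨0, fun N _ => by simp⟩
    | add y z _ _ hy hz =>
      obtain ⟨m, hm⟩ := hy
      obtain ⟨m', hm'⟩ := hz
      exact ⟨max m m', fun N hN => mul_add _ y z ▸
        add_mem (hm N (le_of_max_le_left hN)) (hm' N (le_of_max_le_right hN))⟩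
    | smul c z _ hz =>
      obtain ⟨m, hm⟩ := hz
      obtain ⟨m', hm'⟩ := G.homog c.2
      refine ⟨m + m', fun N hN => ?_⟩
      obtain ⟨d, rfl⟩ := Nat.exists_eq_add_of_le ((Nat.le_add_right m m').trans hN)
      have := up m d (Submodule.mul_mem_mul (hm m le_rfl) (hm' d (by omega)))
      convert this using 1
      rw [Subalgebra.smul_def, smul_eq_mul]
      ring
  choose N hN using fun j => h1 j 1 (h j)
  obtain ⟨μ₀, hμ⟩ := G.R_gen
  have : Nonempty ι := ⟨S.i₀⟩
  obtain ⟨N₀, hN₀⟩ : ∃ N₀, ∀ j, N j ≤ N₀ :=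
    ⟨Finset.univ.sup N, fun j => Finset.le_sup (Finset.mem_univ j)⟩
  have h2 : Submodule.span Ω (Set.range fun j => G.X j ^ (N₀ + a)) ≤ W * G.R N₀ :=
    Submodule.span_le.2 (Set.range_subset_iff.2 fun j => by simpa using hN j N₀ (hN₀ j))
  refine ⟨μ₀ + N₀ + Fintype.card ι * (N₀ + a), fun a' ha' => ?_⟩
  obtain ⟨d, rfl⟩ := Nat.exists_eq_add_of_le ((Nat.le_add_right _ _).trans ha')
  have h3 := KBN.noeth_pow hμ le_rfl (N₀ + a + d)
  rw [show μ₀ + (N₀ + a + d) = μ₀ + N₀ + d + a by omega] at h3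
  refine h3.trans ((mul_le_mul_left ((fibre_pow G.X (by omega)).trans
    ((mul_le_mul' h2 (G.fibre_V_pow d)).trans (up _ _))) _).trans ((up _ _).trans_eq ?_))
  rw [show N₀ + d + μ₀ = μ₀ + N₀ + d by omega]

end Pool.Agent.Lib.MP_bc213e_ag.DD.Geo
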