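import Pool.Agent.Lib.MP_bc213e_ag.DB.Api

/-! The section ring of the fibre. -/

namespace Pool.Agent.Lib.MP_bc213e_ag.DD.Geo

open Pool.Agent.Lib.MP_bc213e_ag.Hyp Module
open scoped TensorProduct

variable {K M ι : Type} [Field K] [Algebra ℂ K] [Field M] [Algebra ℂ M] [Algebra K M] {n : ℕ}
  {S : Su K M ι n} {Ω E : Type} [Field Ω] [Algebra ℂ Ω] [Field E] [Algebra ℂ E] [Algebra Ω E]
  [IsScalarTower ℂ Ω E] {b φ : ℕ} (G : Geo S Ω E b φ)

theorem X_ne (j : ι) : G.X j ≠ 0 := (map_ne_zero _).2 (S.X_ne j)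

theorem X_one : G.X S.i₀ = 1 := by rw [X, S.X_one, map_one]

theorem ι_mem_C {j : ι} {f : M} (h : f ∈ S.B j) : G.ι f ∈ G.C j := by
  induction h using Algebra.adjoin_induction with
  | mem x hx =>
    obtain ⟨o, rfl⟩ := hx
    exact Algebra.subset_adjoin ⟨o, rfl⟩
  | algebraMap c =>
    rw [AlgHom.commutes, IsScalarTower.algebraMap_apply ℂ Ω E]
    exact algebraMap_mem _ _
  | add x y _ _ hx hy =>
    rw [map_add]
    exact add_mem hx hy
  | mul x y _ _ hx hy =>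
    rw [map_mul]
    exact mul_mem hx hy

theorem R_eq (a : ℕ) : G.R a = Submodule.span Ω (G.ι '' S.U a) := map_baseChange G.ι _

theorem ι_mem_R {a : ℕ} {f : M} (h : f ∈ S.U a) : G.ι f ∈ G.R a := by
  rw [R_eq]
  exact Submodule.subset_span ⟨f, h, rfl⟩

theorem X_mem_R (j : ι) : G.X j ∈ G.R 1 := G.ι_mem_R (S.X_mem_U j)

variable {G} in
theorem mul_mem_R {a a' : ℕ} {w w' : E} (h : w ∈ G.R a) (h' : w' ∈ G.R a') :
    w * w' ∈ G.R (a + a') := by
  rw [R_eq] at h h' ⊢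
  have h1 := Submodule.mul_mem_mul h h'
  rw [Submodule.span_mul_span] at h1
  refine Submodule.span_mono ?_ h1
  rintro _ ⟨_, ⟨f, hf, rfl⟩, _, ⟨g, hg, rfl⟩, rfl⟩
  exact ⟨f * g, Su.mul_mem_U hf hg, map_mul _ _ _⟩

theorem R_mono {a a' : ℕ} (h : a ≤ a') : G.R a ≤ G.R a' := by
  rw [R_eq, R_eq]
  exact Submodule.span_mono (Set.image_mono (S.U_mono h))

theorem one_mem_R (a : ℕ) : (1 : E) ∈ G.R a := by
  rw [← map_one G.ι]
  exact G.ι_mem_R (S.U_mono a.zero_le S.one_mem_U)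

variable {G} in
theorem div_mem_C {a : ℕ} {w : E} (h : w ∈ G.R a) (j : ι) : w / G.X j ^ a ∈ G.C j := by
  rw [R_eq] at h
  induction h using Submodule.span_induction with
  | mem x hx =>
    obtain ⟨f, hf, rfl⟩ := hx
    rw [X, ← map_pow, ← map_div₀]
    exact G.ι_mem_C (hf j)
  | zero =>
    rw [zero_div]
    exact zero_mem _
  | add x y _ _ hx hy =>
    rw [add_div]
    exact add_mem hx hy
  | smul c x _ hx =>
    rw [smul_div_assoc]
    exact Subalgebra.smul_mem _ hx c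

theorem fd_R (a : ℕ) : FiniteDimensional Ω (G.R a) := by
  have : FiniteDimensional Ω (G.R (a + 1)) := G.bd (a + 1) a.succ_pos
  exact Submodule.finiteDimensional_of_le (G.R_mono a.le_succ)

/-- The point `e` (`Fib.ev_e`): it lies in every chart. -/
theorem exists_e_pt (j : ι) :
    ∃ ev : G.C j →ₐ[Ω] Ω, ∀ (f : M) (h : f ∈ S.B j), ev ⟨G.ι f, G.ι_mem_C h⟩ = G.e f := by
  have hle : G.C j ≤ (evT Ω G.ι).range := Algebra.adjoin_le (by
    rintro _ ⟨o, rfl⟩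
    exact ⟨1 ⊗ₜ S.gen j o, by simp⟩)
  refine ⟨(AlgHom.liftOfSurjective (evT Ω G.ι).rangeRestrict
    (evT Ω G.ι).rangeRestrict_surjective (evT Ω G.e) fun s hs =>
      G.ev_e (congrArg Subtype.val hs)).comp (Subalgebra.inclusion hle), fun f h => ?_⟩
  have e : Subalgebra.inclusion hle ⟨G.ι f, G.ι_mem_C h⟩ = (evT Ω G.ι).rangeRestrict (1 ⊗ₜ f) :=
    Subtype.ext (show G.ι f = evT Ω G.ι (1 ⊗ₜ f) by simp)
  rw [AlgHom.comp_apply, e, AlgHom.liftOfSurjective_apply]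
  simp

variable [IsScalarTower ℂ K M] [Fintype ι]

/-- Nullstellensatz on a chart of the fibre. -/
theorem null [IsAlgClosed Ω] (j : ι) {T : Set E} (hT : ∀ f ∈ T, f ∈ G.C j)
    (h : ∀ ev : G.C j →ₐ[Ω] Ω, ∃ f : G.C j, (f : E) ∈ T ∧ ev f ≠ 0) :
    (1 : E) ∈ Submodule.span (G.C j) T := by
  have : Algebra.FiniteType Ω (G.C j) :=
    Algebra.FiniteType.adjoin_of_finite (Set.finite_range _)
  have h1 : Ideal.span {f : G.C j | (f : E) ∈ T} = ⊤ := by
    by_contra h1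
    obtain ⟨m, hm, h2⟩ := Ideal.exists_le_maximal _ h1
    let := Ideal.Quotient.field m
    have := finite_of_finite_type_of_isJacobsonRing Ω (G.C j ⧸ m)
    obtain ⟨f, h3, h4⟩ := h ((AlgEquiv.ofBijective (Algebra.ofId Ω (G.C j ⧸ m))
      IsAlgClosed.algebraMap_bijective_of_isIntegral).symm.toAlgHom.comp (Ideal.Quotient.mkₐ Ω m))
    refine h4 ?_
    rw [AlgHom.comp_apply, Ideal.Quotient.mkₐ_eq_mk,
      Ideal.Quotient.eq_zero_iff_mem.2 (h2 (Ideal.subset_span h3)), map_zero]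
  have h2 : Ideal.span {f : G.C j | (f : E) ∈ T} ≤
      (Submodule.span (G.C j) T).comap (Algebra.linearMap (G.C j) E) :=
    Submodule.span_le.2 fun f hf => Submodule.subset_span hf
  exact h2 ((Ideal.eq_top_iff_one _).1 h1)

theorem homog {j : ι} {f : E} (h : f ∈ G.C j) : ∃ N, ∀ a, N ≤ a → G.X j ^ a * f ∈ G.R a := by
  induction h using Algebra.adjoin_induction with
  | mem x hx =>
    obtain ⟨o, rfl⟩ := hx
    obtain ⟨N, hN⟩ := S.homog (S.gen_mem j o)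
    refine ⟨N, fun a ha => ?_⟩
    rw [X, ← map_pow, ← map_mul]
    exact G.ι_mem_R (hN a ha)
  | algebraMap c =>
    refine ⟨0, fun a _ => ?_⟩
    rw [mul_comm, ← Algebra.smul_def, X, ← map_pow]
    exact Submodule.smul_mem _ _ (G.ι_mem_R (by simpa using Su.pow_mem_U (S.X_mem_U j) a))
  | add x y _ _ hx hy =>
    obtain ⟨N, hN⟩ := hx
    obtain ⟨N', hN'⟩ := hy
    refine ⟨N + N', fun a ha => ?_⟩
    rw [mul_add]
    exact add_mem (hN a (by omega)) (hN' a (by omega))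
  | mul x y _ _ hx hy =>
    obtain ⟨N, hN⟩ := hx
    obtain ⟨N', hN'⟩ := hy
    refine ⟨N + N', fun a ha => ?_⟩
    obtain ⟨c, rfl⟩ : ∃ c, a = N + c := ⟨a - N, by omega⟩
    rw [pow_add, mul_mul_mul_comm]
    exact mul_mem_R (hN N le_rfl) (hN' c (by omega))

end Pool.Agent.Lib.MP_bc213e_ag.DD.Geo
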