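import Pool.Agent.Lib.MP_bc213e_ag.DB.Su

/-! Jacobians with respect to the reference frame. -/

namespace Pool.Agent.Lib.MP_bc213e_ag.DD

open Pool.Agent.Lib.MP_bc213e_ag.Hyp

section frame

variable {M κ : Type} [Field M] [Algebra ℂ M] [DecidableEq κ] {T : κ → M}
  {D : κ → Derivation ℂ M M}

theorem Frame.expand [Fintype κ] (h : Frame T D) (δ : Derivation ℂ M M) (f : M) :
    δ f = ∑ c, δ (T c) * D c f := TCI.der_expand T h.tb D h.dual δ f

theorem Frame.equiv {κ' : Type} [DecidableEq κ'] (h : Frame T D) (ε : κ' ≃ κ) :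
    Frame (T ∘ ε) (D ∘ ε) :=
  ⟨(isTranscendenceBasis_equiv ε).2 h.tb, fun c d => by
    simp only [Function.comp_apply, h.dual, EmbeddingLike.apply_eq_iff_eq]⟩

theorem jm_der_aeval (h : ∀ c d, D c (T d) = if c = d then 1 else 0) (c : κ)
    (p : MvPolynomial κ ℂ) :
    D c (MvPolynomial.aeval T p) = MvPolynomial.aeval T (MvPolynomial.pderiv c p) := by
  induction p using MvPolynomial.induction_on with
  | C a => rw [MvPolynomial.aeval_C, MvPolynomial.pderiv_C, map_zero, Derivation.map_algebraMap]
  | add p q hp hq => rw [map_add, map_add, hp, hq, map_add, map_add]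
  | mul_X p d hp =>
    rw [map_mul, Derivation.leibniz, hp, MvPolynomial.aeval_X, h, MvPolynomial.pderiv_mul, map_add,
      map_mul, map_mul, MvPolynomial.aeval_X, smul_eq_mul, smul_eq_mul, add_comm, mul_comm (T d)]
    congr 2
    by_cases e : c = d
    · subst e
      rw [if_pos rfl, MvPolynomial.pderiv_X_self, map_one]
    · rw [if_neg e, MvPolynomial.pderiv_X_of_ne (Ne.symm e), map_zero]

theorem jm_eq_zero (h : ∀ c d, D c (T d) = if c = d then 1 else 0) (N : ℕ) :
    ∀ p : MvPolynomial κ ℂ, (∀ m, N ≤ m.degree → p.coeff m = 0) → MvPolynomial.aeval T p = 0 →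
      p = 0 := by
  induction N with
  | zero => exact fun p hp _ => MvPolynomial.ext _ _ fun m => hp m (Nat.zero_le _)
  | succ N ih =>
    intro p hp h0
    have h1 : ∀ c, MvPolynomial.pderiv c p = 0 := fun c => by
      refine ih _ (fun m hm => ?_) ?_
      · rw [MvPolynomial.coeff_pderiv, hp, zero_mul]
        rw [map_add, Finsupp.degree_single]
        omega
      · rw [← jm_der_aeval h, h0, map_zero]
    have h2 : p = MvPolynomial.C (p.coeff 0) := by
      refine MvPolynomial.ext _ _ fun m => ?_
      rw [MvPolynomial.coeff_C]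
      split_ifs with e
      · rw [e]
      · obtain ⟨c, hc⟩ : ∃ c, m c ≠ 0 := by
          by_contra hn
          exact e (Finsupp.ext fun c => (not_not.1 fun hc => hn ⟨c, hc⟩ : m c = 0).symm)
        have h3 := MvPolynomial.coeff_pderiv (i := c) p (m - Finsupp.single c 1)
        rw [h1, MvPolynomial.coeff_zero, tsub_add_cancel_of_le
          (Finsupp.single_le_iff.2 (Nat.one_le_iff_ne_zero.2 hc))] at h3
        exact (mul_eq_zero.1 h3.symm).resolve_right (Nat.cast_add_one_ne_zero _)
    rw [h2, MvPolynomial.aeval_C, map_eq_zero] at h0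
    rw [h2, h0, map_zero]

/-- Elements with dual derivations are algebraically independent: differentiate a relation of least
degree. -/
theorem algInd_of_dual [Fintype κ] (h : ∀ c d, D c (T d) = if c = d then 1 else 0) :
    AlgebraicIndependent ℂ T :=
  algebraicIndependent_iff.2 fun p hp => jm_eq_zero h (p.totalDegree + 1) p (fun _ hm =>
    MvPolynomial.coeff_eq_zero_of_totalDegree_lt (Nat.lt_of_succ_le hm)) hp

theorem frame_of_dual [Fintype κ] (h : ∀ c d, D c (T d) = if c = d then 1 else 0)
    (dim : Algebra.trdeg ℂ M = Fintype.card κ) : Frame T D :=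
  ⟨TCI.isTrBasis_of_card T (algInd_of_dual h) dim.le, h⟩

end frame

namespace Su

variable {K M ι : Type} [Field K] [Algebra ℂ K] [Field M] [Algebra ℂ M] [Algebra K M]
  [IsScalarTower ℂ K M] {n : ℕ} (S : Su K M ι n)

include S in
theorem trdeg : Algebra.trdeg ℂ M = (n + 1 : ℕ) := by
  rw [TCI.trdeg_eq_card S.tb S.tb_basis, Fintype.card_option, Fintype.card_fin]

/-- Both sides are derivations `K → M` that agree on `τ` (`TCI.der_eq_zero`). -/
theorem Dref_some (a : Fin n) (f : K) :
    S.Dref (some a) (algebraMap K M f) = algebraMap K M (S.D a f) := by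
  have e := TCI.der_eq_zero S.τ S.hτ
    ((S.Dref (some a)).compAlgebraMap K - (Algebra.linearMap K M).compDer (S.D a)) fun b => by
      change S.Dref (some a) (S.tb (some b)) - algebraMap K M (S.D a (S.τ b)) = 0
      rw [S.frame_ref.dual, S.hD]
      by_cases hab : a = b <;> simp [hab]
  exact sub_eq_zero.1 (DFunLike.congr_fun e f)

theorem Dref_none (f : K) : S.Dref none (algebraMap K M f) = 0 := by
  have e := TCI.der_eq_zero S.τ S.hτ ((S.Dref none).compAlgebraMap K) fun b => by
    change S.Dref none (S.tb (some b)) = 0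
    rw [S.frame_ref.dual, if_neg (by simp)]
  exact DFunLike.congr_fun e f

theorem Dref_none_v (j : ι) : S.Dref none (S.v j) = algebraMap K M (S.g j) := by
  have e : S.Dref none S.u = 1 := (S.frame_ref.dual none none).trans (if_pos rfl)
  rw [v, Derivation.leibniz, S.Dref_none, e, smul_zero, add_zero, smul_eq_mul, mul_one]

theorem jm_det_option {R κ : Type} [CommRing R] [Fintype κ] [DecidableEq κ]
    (A : Matrix (Option κ) (Option κ) R) (h : ∀ b, A none (some b) = 0) :
    A.det = A none none * (Matrix.of fun a b => A (some a) (some b)).det := by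
  have e : A.submatrix (Equiv.optionEquivSumPUnit.{0} κ).symm
      (Equiv.optionEquivSumPUnit.{0} κ).symm =
      Matrix.fromBlocks (Matrix.of fun a b => A (some a) (some b))
        (Matrix.of fun a _ => A (some a) none) 0 (Matrix.of fun _ _ => A none none) := by
    ext a b
    rcases a with a | a <;> rcases b with b | b
    · rfl
    · rfl
    · exact h b
    · rfl
  rw [← Matrix.det_submatrix_equiv_self (Equiv.optionEquivSumPUnit.{0} κ).symm, e,
    Matrix.det_fromBlocks_zero₂₁, mul_comm, Matrix.det_unique]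
  rfl

/-- The matrix is block triangular. -/
theorem jm_v (j : ι) (Y : Fin n → K) :
    S.jm (fun o => o.elim (S.v j) fun a => algebraMap K M (Y a)) =
      algebraMap K M (jac S.D Y / S.g j) * S.v j ^ 2 := by
  have hg : algebraMap K M (S.g j) ≠ 0 := (map_ne_zero _).2 (S.g j).ne_zero
  have e : (Matrix.of fun a b => S.Dref (some a) (algebraMap K M (Y b))).det =
      algebraMap K M (jac S.D Y) := by
    rw [jac, RingHom.map_det]
    congr 1
    ext a b
    exact S.Dref_some a (Y b)
  rw [jm, jm_det_option _ fun b => S.Dref_none (Y b)]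
  change S.u ^ 2 * (S.Dref none (S.v j) *
    (Matrix.of fun a b => S.Dref (some a) (algebraMap K M (Y b))).det) = _
  rw [e, S.Dref_none_v, map_div₀, v]
  field_simp

/-- The chain rule (`TCI.det_der_expand`). -/
theorem jm_chain {T : Option (Fin n) → M} {D : Option (Fin n) → Derivation ℂ M M} (h : Frame T D)
    (F : Option (Fin n) → M) : S.jm F = S.jm T * (Matrix.of fun a b => D a (F b)).det := by
  rw [jm, jm, TCI.det_der_expand T h.tb D h.dual S.Dref F, mul_assoc]

theorem jm_ne_zero {T : Option (Fin n) → M} {D : Option (Fin n) → Derivation ℂ M M}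
    (h : Frame T D) : S.jm T ≠ 0 := by
  intro h0
  have e := S.jm_chain h S.tb
  have e1 : (Matrix.of fun a b => S.Dref a (S.tb b)) = 1 := by
    ext a b
    rw [Matrix.of_apply, S.frame_ref.dual, Matrix.one_apply]
  rw [h0, zero_mul, jm, e1, Matrix.det_one, mul_one] at e
  exact pow_ne_zero 2 S.u_ne e

theorem mu_jm (F : Option (Fin n) → M) : S.mu F * S.u ^ S.m = S.jm F ^ S.m * S.u := by
  rw [mu, jm]
  ring

theorem mu_v (j : ι) (Y : Fin n → K) :
    S.mu (fun o => o.elim (S.v j) fun a => algebraMap K M (Y a)) =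
      algebraMap K M (jac S.D Y ^ S.m / S.g j) * S.v j ^ (S.m + 1) := by
  have hg : algebraMap K M (S.g j) ≠ 0 := (map_ne_zero _).2 (S.g j).ne_zero
  refine mul_right_cancel₀ (pow_ne_zero S.m S.u_ne) ?_
  rw [mu_jm, jm_v, map_div₀, map_div₀, map_pow, v, mul_pow, div_pow]
  field_simp
  ring

theorem mu_chain {T : Option (Fin n) → M} {D : Option (Fin n) → Derivation ℂ M M} (h : Frame T D)
    (F : Option (Fin n) → M) :
    S.mu F = S.mu T * (Matrix.of fun a b => D a (F b)).det ^ S.m := by
  rw [mu, mu, TCI.det_der_expand T h.tb D h.dual S.Dref F, mul_pow, mul_assoc]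

theorem mu_ne_zero {T : Option (Fin n) → M} {D : Option (Fin n) → Derivation ℂ M M}
    (h : Frame T D) : S.mu T ≠ 0 := fun h0 => by
  have e := S.mu_jm T
  rw [h0, zero_mul] at e
  exact mul_ne_zero (pow_ne_zero _ (S.jm_ne_zero h)) S.u_ne e.symm

end Su

end Pool.Agent.Lib.MP_bc213e_ag.DD
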