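import Pool.Agent.Lib.MP_bc213e_ag.DB.Su0

/-! The chart rings and the dimension of the spaces of sections. -/

namespace Pool.Agent.Lib.MP_bc213e_ag.DD.Su

set_option linter.unusedSectionVars false

open Pool.Agent.Lib.MP_bc213e_ag.Hyp Module

variable {K M ι : Type} [Field K] [Algebra ℂ K] [Field M] [Algebra ℂ M] [Algebra K M] {n : ℕ}
  (S : Su K M ι n)

variable [IsScalarTower ℂ K M] [Fintype ι]

/-- `KBB.main_sec`, or `cart` directly. -/
theorem exists_e : ∃ e, 0 < e ∧ ∀ j o, S.X j ^ e * S.gen j o ∈ S.V 1 e := by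
  choose e he using fun j => KBB.main_sec S.cart 1 j
  refine ⟨Finset.univ.sup e + 1, Nat.succ_pos _, fun j o => ?_⟩
  cases o with
  | none =>
    obtain ⟨c, hc⟩ := Nat.exists_eq_add_of_le (Finset.le_sup (f := e) (Finset.mem_univ j))
    have h1 := KBD.sec_mul (he j) (KBD.sec_x S.x S.g j (c + 1))
    have h2 := S.sec_mem_V (i := 1) (m := 1) le_rfl h1
    rw [KBB.fr, zpow_one, mul_assoc, ← pow_add, ← add_assoc, ← hc, map_mul, map_pow,
      pow_one] at h2
    have h3 : S.X j ^ (Finset.univ.sup e + 1) * S.gen j none = algebraMap K M (S.g j) *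
        algebraMap K M (S.x j) ^ (Finset.univ.sup e + 1) * S.u := by
      simp only [gen, Option.elim, v, X]
      ring
    rwa [h3]
  | some l =>
    have h1 := mul_mem_V (pow_mem_V (S.X_mem_V j) (Finset.univ.sup e)) (S.X_mem_V l)
    have h3 : S.X j ^ (Finset.univ.sup e + 1) * S.gen j (some l) =
        S.X j ^ Finset.univ.sup e * S.X l := by
      have := S.X_ne j
      simp only [gen, Option.elim]
      field_simp
      ring
    rw [h3]
    exact S.V_mono (by omega) (by omega) h1

/-- Homogenisation. -/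
theorem homog {j : ι} {f : M} (h : f ∈ S.B j) : ∃ N, ∀ a, N ≤ a → S.X j ^ a * f ∈ S.U a := by
  have up : ∀ f N, S.X j ^ N * f ∈ S.U N → ∀ a, N ≤ a → S.X j ^ a * f ∈ S.U a := by
    intro f N hf a ha
    obtain ⟨c, rfl⟩ := Nat.exists_eq_add_of_le' ha
    have := mul_mem_U (pow_mem_U (S.X_mem_U j) c) hf
    rwa [mul_one, ← mul_assoc, ← pow_add] at this
  suffices h1 : ∃ N, S.X j ^ N * f ∈ S.U N from h1.imp (up f)
  induction h using Algebra.adjoin_induction with
  | mem z hz =>
    obtain ⟨o, rfl⟩ := hz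
    obtain ⟨e, -, he⟩ := S.exists_e
    exact ⟨e, S.V_le_U 1 e (he j o)⟩
  | algebraMap c =>
    refine ⟨0, ?_⟩
    rw [pow_zero, one_mul, Algebra.algebraMap_eq_smul_one]
    exact Submodule.smul_mem _ c S.one_mem_U
  | add a b _ _ ha hb =>
    obtain ⟨N, ha⟩ := ha
    obtain ⟨N', hb⟩ := hb
    refine ⟨N + N', ?_⟩
    rw [mul_add]
    exact add_mem (up a N ha _ (by omega)) (up b N' hb _ (by omega))
  | mul a b _ _ ha hb =>
    obtain ⟨N, ha⟩ := ha
    obtain ⟨N', hb⟩ := hb
    refine ⟨N + N', ?_⟩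
    rw [pow_add, mul_mul_mul_comm]
    exact mul_mem_U ha hb

omit [Fintype ι] in
theorem su_top (j : ι) : IntermediateField.adjoin ℂ (Set.range (S.gen j)) = ⊤ := by
  have h1 : ∀ z ∈ S.B j, z ∈ IntermediateField.adjoin ℂ (Set.range (S.gen j)) :=
    fun z hz => IntermediateField.algebra_adjoin_le_adjoin ℂ _ hz
  have h2 : ∀ k : K, algebraMap K M k ∈ IntermediateField.adjoin ℂ (Set.range (S.gen j)) := by
    intro k
    have := S.frac j
    obtain ⟨a, b, -, rfl⟩ := IsFractionRing.div_surjective (chart S.x j) k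
    rw [map_div₀]
    exact div_mem (h1 _ (S.map_mem_B a.2)) (h1 _ (S.map_mem_B b.2))
  refine eq_top_iff.2 fun z hz0 => ?_
  have hz : z ∈ IntermediateField.adjoin K {S.u} := S.top ▸ IntermediateField.mem_top
  clear hz0
  induction hz using IntermediateField.adjoin_induction with
  | mem z hz =>
    have h3 := div_mem (h1 _ (S.v_mem j)) (h2 (S.g j))
    rw [v, mul_div_cancel_left₀ _ ((map_ne_zero _).2 (S.g j).ne_zero)] at h3
    rwa [Set.mem_singleton_iff.1 hz]
  | algebraMap c => exact h2 c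
  | add a b _ _ ha hb => exact add_mem ha hb
  | inv a _ ha => exact inv_mem ha
  | mul a b _ _ ha hb => exact mul_mem ha hb

theorem frac_B (j : ι) : IsFractionRing (S.B j) M := by
  refine IsFractionRing.of_field _ _ fun z => ?_
  obtain ⟨a, ha, b, hb, e⟩ := IntermediateField.mem_adjoin_iff_div.1
    (S.su_top j ▸ IntermediateField.mem_top : z ∈ IntermediateField.adjoin ℂ (Set.range (S.gen j)))
  exact ⟨⟨a, ha⟩, ⟨b, hb⟩, e⟩

theorem noeth_B (j : ι) : IsNoetherianRing (S.B j) := by
  exact isNoetherianRing_of_fg (Subalgebra.fg_def.2 ⟨_, Set.finite_range _, rfl⟩)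

omit [Algebra ℂ M] [IsScalarTower ℂ K M] [Fintype ι] in
theorem su_tr (j : ι) : Transcendental K (S.v j) := fun h => S.tr (by
  have h1 := (isAlgebraic_algebraMap (A := M) ((S.g j : K)⁻¹)).mul h
  rwa [v, ← mul_assoc, ← map_mul, inv_mul_cancel₀ (S.g j).ne_zero, map_one, one_mul] at h1)

/-- `B j` is a polynomial ring over the integrally closed domain `chart x j`. -/
theorem norm_B (j : ι) : IsIntegrallyClosed (S.B j) := by
  have := S.norm j
  let φ : Polynomial (chart S.x j) →+* M :=
    (Polynomial.aeval (S.v j)).toRingHom.comp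
      (Polynomial.mapRingHom (algebraMap (chart S.x j) K))
  have hC : ∀ r : chart S.x j, φ (Polynomial.C r) = algebraMap K M r := fun r => by simp [φ]
  have hX : φ Polynomial.X = S.v j := by simp [φ]
  have hm : ∀ p, φ p ∈ S.B j := fun p => by
    induction p using Polynomial.induction_on' with
    | add p q hp hq =>
      rw [map_add]
      exact add_mem hp hq
    | monomial i r =>
      rw [← Polynomial.C_mul_X_pow_eq_monomial, map_mul, map_pow, hC, hX]
      exact mul_mem (S.map_mem_B r.2) (pow_mem (S.v_mem j) i)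
  have hi : Function.Injective φ := (transcendental_iff_injective.1 (S.su_tr j)).comp
    (Polynomial.map_injective _ Subtype.val_injective)
  have hs : ∀ z ∈ S.B j, z ∈ φ.range := fun z hz => by
    induction hz using Algebra.adjoin_induction with
    | mem z hz =>
      obtain ⟨o, rfl⟩ := hz
      cases o with
      | none => exact ⟨_, hX⟩
      | some l => exact ⟨_, (hC ⟨_, Basic_mem S.x j l⟩).trans (map_div₀ _ _ _)⟩
    | algebraMap c =>
      exact ⟨_, (hC (algebraMap ℂ _ c)).trans (IsScalarTower.algebraMap_apply ℂ K M c).symm⟩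
    | add a b _ _ ha hb => exact add_mem ha hb
    | mul a b _ _ ha hb => exact mul_mem ha hb
  refine IsIntegrallyClosed.of_equiv (RingEquiv.ofBijective (φ.codRestrict (S.B j) hm)
    ⟨fun p q e => hi (congrArg Subtype.val e), fun z => ?_⟩)
  obtain ⟨p, hp⟩ := hs z z.2
  exact ⟨p, Subtype.ext hp⟩

theorem gen_top (j : ι) : IntermediateField.adjoin ℂ (Set.range (S.gen j)) = ⊤ := by
  exact S.su_top j

include S in
theorem essFin : Algebra.EssFiniteType ℂ M := by
  rw [← IntermediateField.fg_top_iff, ← S.gen_top S.i₀]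
  exact IntermediateField.fg_adjoin_of_finite (Set.finite_range _)

theorem su_mem_V {f : M} (h : f ∈ S.B S.i₀) : ∃ c, ∀ c', c ≤ c' → f ∈ S.V c' c' := by
  obtain ⟨N, hN⟩ := S.homog h
  have h1 := hN N le_rfl
  rw [S.X_one, one_pow, one_mul] at h1
  obtain ⟨m, hm⟩ := S.exists_V h1
  exact ⟨m + N, fun c' hc => S.V_mono (by omega) (by omega) hm⟩

/-- A common denominator. -/
theorem ratio {κ : Type} [Finite κ] (f : κ → M) :
    ∃ (c : ℕ) (σ : M), σ ≠ 0 ∧ σ ∈ S.V c c ∧ ∀ i, σ * f i ∈ S.V c c := by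
  have := S.frac_B S.i₀
  have := Fintype.ofFinite κ
  obtain ⟨b, hb⟩ := IsLocalization.exist_integer_multiples_of_finite (nonZeroDivisors (S.B S.i₀)) f
  obtain ⟨c₀, h0⟩ := S.su_mem_V b.1.2
  choose c hc using fun i => S.su_mem_V (f := (b.1 : M) * f i) (by
    obtain ⟨r, hr⟩ := hb i
    exact (show (r : M) = (b.1 : M) * f i from hr) ▸ r.2)
  refine ⟨c₀ + Finset.univ.sup c, b.1, fun e => nonZeroDivisors.ne_zero b.2 (Subtype.ext e),
    h0 _ (by omega), fun i => hc i _ ?_⟩
  exact (Finset.le_sup (f := c) (Finset.mem_univ i)).trans (Nat.le_add_left _ _)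

omit [Fintype ι] in
theorem su_equiv (m a : ℕ) :
    Nonempty ((∀ i : Fin (m + 1), KBB.SecS S.x S.g ((i : ℕ) : ℤ) a) ≃ₗ[ℂ] S.V m a) := by
  let L : (∀ i : Fin (m + 1), KBB.SecS S.x S.g ((i : ℕ) : ℤ) a) →ₗ[ℂ] M :=
    { toFun := fun s => ∑ i, algebraMap K M (s i) * S.u ^ (i : ℕ)
      map_add' := fun s t => by
        simp only [Pi.add_apply, Submodule.coe_add, map_add, add_mul, Finset.sum_add_distrib]
      map_smul' := fun c s => by
        simp only [Pi.smul_apply, Submodule.coe_smul, RingHom.id_apply, Finset.smul_sum,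
          algebraMap.smul, smul_mul_assoc] }
  have hi : Function.Injective L := (injective_iff_map_eq_zero L).2 fun s hs => by
    have h1 : ∑ i : Fin (m + 1), Polynomial.monomial (i : ℕ) (s i : K) = 0 := by
      refine transcendental_iff.1 S.tr _ ?_
      rw [map_sum]
      simp only [Polynomial.aeval_monomial]
      exact hs
    funext i
    have h2 := congrArg (Polynomial.coeff · i) h1
    simp only [Polynomial.finsetSum_coeff, Polynomial.coeff_monomial, Fin.val_inj,
      Finset.sum_ite_eq', Finset.mem_univ, if_true, Polynomial.coeff_zero] at h2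
    exact Subtype.ext h2
  have hr : LinearMap.range L = S.V m a := by
    refine le_antisymm ?_ fun f hf => ?_
    · rintro _ ⟨s, rfl⟩
      exact sum_mem (t := Finset.univ) fun i _ => S.sec_mem_V (Nat.lt_succ_iff.1 i.2) (s i).2
    · obtain ⟨p, h1, h2, rfl⟩ := S.mem_V.1 hf
      refine ⟨fun i => ⟨p.coeff i, h2 i⟩, ?_⟩
      rw [Polynomial.aeval_eq_sum_range' (Nat.lt_succ_iff.2 h1), Finset.sum_range]
      simp only [Algebra.smul_def]
      rfl
  exact ⟨(LinearEquiv.ofInjective L hi).trans (LinearEquiv.ofEq _ _ hr)⟩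

theorem fd_V (m a : ℕ) : FiniteDimensional ℂ (S.V m a) := by
  have := fun i : Fin (m + 1) => KBD.secS_fd S.cart S.nef S.i₀ i a
  obtain ⟨e⟩ := S.su_equiv m a
  exact e.finiteDimensional

/-- `V m a` is linearly equivalent to the product of the `SecS x g i a`, `i ≤ m`. -/
theorem finrank_V (m a : ℕ) :
    finrank ℂ (S.V m a) = ∑ i ∈ Finset.range (m + 1), finrank ℂ (KBB.SecS S.x S.g (i : ℕ) a) := by
  have := fun i : Fin (m + 1) => KBD.secS_fd S.cart S.nef S.i₀ i a
  obtain ⟨e⟩ := S.su_equiv m a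
  rw [← e.finrank_eq, finrank_pi_fintype, Finset.sum_range]

end Pool.Agent.Lib.MP_bc213e_ag.DD.Su
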