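import Pool.Agent.Lib.MP_bc213e_ag.DD.Defs
import Pool.Agent.Lib.MP_bc213e_ag.KBD.Untw

/-! The spaces of sections on the projective line bundle. -/

namespace Pool.Agent.Lib.MP_bc213e_ag.DD.Su

open Pool.Agent.Lib.MP_bc213e_ag.Hyp Module

variable {K M ι : Type} [Field K] [Algebra ℂ K] [Field M] [Algebra ℂ M] [Algebra K M] {n : ℕ}
  (S : Su K M ι n)

omit [Algebra ℂ M] in
theorem X_ne (j : ι) : S.X j ≠ 0 := (map_ne_zero _).2 (S.x j).ne_zero

omit [Algebra ℂ M] in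
theorem X_one : S.X S.i₀ = 1 := by rw [X, S.one, Units.val_one, map_one]

omit [Algebra ℂ M] in
theorem u_ne : S.u ≠ 0 := fun h => S.tr (h ▸ isAlgebraic_zero)

omit [Algebra ℂ M] in
theorem v_ne (j : ι) : S.v j ≠ 0 := mul_ne_zero ((map_ne_zero _).2 (S.g j).ne_zero) S.u_ne

theorem gen_mem (j : ι) (o : Option ι) : S.gen j o ∈ S.B j := Algebra.subset_adjoin ⟨o, rfl⟩

theorem v_mem (j : ι) : S.v j ∈ S.B j := S.gen_mem j none

theorem X_div_mem (j l : ι) : S.X l / S.X j ∈ S.B j := S.gen_mem j (some l)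

theorem mem_U {a : ℕ} {f : M} : f ∈ S.U a ↔ ∀ j, f / S.X j ^ a ∈ S.B j := Iff.rfl

theorem one_mem_U : (1 : M) ∈ S.U 0 := fun j => by simp

theorem X_mem_U (l : ι) : S.X l ∈ S.U 1 := fun j => by
  rw [pow_one]
  exact S.X_div_mem j l

variable {S} in
theorem mul_mem_U {a a' : ℕ} {f f' : M} (h : f ∈ S.U a) (h' : f' ∈ S.U a') :
    f * f' ∈ S.U (a + a') := fun j => by
  rw [pow_add, mul_div_mul_comm]
  exact mul_mem (h j) (h' j)

variable {S} in
theorem pow_mem_U {a : ℕ} {f : M} (h : f ∈ S.U a) (N : ℕ) : f ^ N ∈ S.U (N * a) := fun j => by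
  rw [mul_comm, pow_mul, ← div_pow]
  exact pow_mem (h j) N

theorem U_mono {a a' : ℕ} (h : a ≤ a') : S.U a ≤ S.U a' := fun f hf => by
  obtain ⟨c, rfl⟩ := Nat.exists_eq_add_of_le h
  have := mul_mem_U hf (pow_mem_U (S.X_mem_U S.i₀) c)
  rwa [S.X_one, one_pow, mul_one, mul_one] at this

variable [IsScalarTower ℂ K M]

theorem map_mem_B {j : ι} {r : K} (hr : r ∈ chart S.x j) : algebraMap K M r ∈ S.B j := by
  refine (Algebra.adjoin_le (S := (S.B j).comap (IsScalarTower.toAlgHom ℂ K M)) ?_) hr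
  rintro _ ⟨l, rfl⟩
  change algebraMap K M (_ / _) ∈ S.B j
  rw [map_div₀]
  exact S.X_div_mem j l

theorem mem_Deg {m : ℕ} {f : M} :
    f ∈ S.Deg m ↔ ∃ p : Polynomial K, p.natDegree ≤ m ∧ Polynomial.aeval S.u p = f := by
  simp only [Deg, Submodule.restrictScalars_mem, Submodule.mem_map, Polynomial.mem_degreeLE,
    Polynomial.natDegree_le_iff_degree_le, AlgHom.toLinearMap_apply]

/-- The elements of the chart ring are the polynomials in `v j` over the chart of `X`. -/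
theorem mem_B {j : ι} {f : M} : f ∈ S.B j ↔ ∃ p : Polynomial K,
    (∀ i, p.coeff i / (S.g j : K) ^ i ∈ chart S.x j) ∧ Polynomial.aeval S.u p = f := by
  have hg : (S.g j : K) ≠ 0 := (S.g j).ne_zero
  have hC : ∀ r ∈ chart S.x j, ∀ i, (Polynomial.C r).coeff i / (S.g j : K) ^ i ∈ chart S.x j := by
    intro r hr i
    rw [Polynomial.coeff_C]
    split_ifs with h
    · rwa [h, pow_zero, div_one]
    · rw [zero_div]
      exact zero_mem _
  constructor
  · intro hf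
    induction hf using Algebra.adjoin_induction with
    | mem x hx =>
      obtain ⟨_ | l, rfl⟩ := hx
      · refine ⟨Polynomial.monomial 1 (S.g j : K), fun i => ?_, ?_⟩
        · rw [Polynomial.coeff_monomial]
          split_ifs with h
          · rw [← h, pow_one, div_self hg]
            exact one_mem _
          · rw [zero_div]
            exact zero_mem _
        · rw [Polynomial.aeval_monomial, pow_one]
          rfl
      · refine ⟨_, hC ((S.x l : K) / S.x j) (Algebra.subset_adjoin ⟨l, rfl⟩), ?_⟩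
        rw [Polynomial.aeval_C, map_div₀]
        rfl
    | algebraMap c =>
      exact ⟨_, hC _ (Subalgebra.algebraMap_mem _ c), by
        rw [Polynomial.aeval_C, ← IsScalarTower.algebraMap_apply]⟩
    | add x y _ _ hx hy =>
      obtain ⟨p, hp, rfl⟩ := hx
      obtain ⟨q, hq, rfl⟩ := hy
      refine ⟨p + q, fun i => ?_, map_add _ _ _⟩
      rw [Polynomial.coeff_add, add_div]
      exact add_mem (hp i) (hq i)
    | mul x y _ _ hx hy =>
      obtain ⟨p, hp, rfl⟩ := hx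
      obtain ⟨q, hq, rfl⟩ := hy
      refine ⟨p * q, fun i => ?_, map_mul _ _ _⟩
      rw [Polynomial.coeff_mul, Finset.sum_div]
      refine sum_mem fun c hc => ?_
      rw [← Finset.HasAntidiagonal.mem_antidiagonal.1 hc, pow_add, mul_div_mul_comm]
      exact mul_mem (hp _) (hq _)
  · rintro ⟨p, hp, rfl⟩
    rw [Polynomial.aeval_eq_sum_range]
    refine sum_mem fun i _ => ?_
    have e : p.coeff i • S.u ^ i = algebraMap K M (p.coeff i / (S.g j : K) ^ i) * S.v j ^ i := by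
      rw [v, mul_pow, ← map_pow, ← mul_assoc, ← map_mul, div_mul_cancel₀ _ (pow_ne_zero i hg),
        Algebra.smul_def]
    rw [e]
    exact mul_mem (S.map_mem_B (hp i)) (pow_mem (S.v_mem j) i)

/-- The polynomial is unique because `u` is transcendental. -/
theorem aeval_mem_U [Nonempty ι] {a : ℕ} {p : Polynomial K} :
    Polynomial.aeval S.u p ∈ S.U a ↔ ∀ i : ℕ, Sec S.x S.g i a (p.coeff i) := by
  have e : ∀ j, Polynomial.aeval S.u p / S.X j ^ a =
      Polynomial.aeval S.u (p * Polynomial.C ((S.x j : K) ^ a)⁻¹) := fun j => by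
    rw [map_mul, Polynomial.aeval_C, map_inv₀, map_pow, div_eq_mul_inv, X]
  have e' : ∀ j i, (p * Polynomial.C ((S.x j : K) ^ a)⁻¹).coeff i / (S.g j : K) ^ i =
      p.coeff i / ((S.g j : K) ^ (i : ℤ) * (S.x j : K) ^ a) := fun j i => by
    rw [Polynomial.coeff_mul_C, zpow_natCast, ← div_eq_mul_inv, div_div, mul_comm]
  simp only [mem_U, e, mem_B, Sec, ← e']
  refine ⟨fun h i j => ?_, fun h j => ⟨_, fun i => h i j, rfl⟩⟩
  obtain ⟨q, hq, h'⟩ := h j
  exact transcendental_iff_injective.1 S.tr h' ▸ hq i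

theorem mem_V {m a : ℕ} {f : M} : f ∈ S.V m a ↔ ∃ p : Polynomial K, p.natDegree ≤ m ∧
    (∀ i : ℕ, Sec S.x S.g i a (p.coeff i)) ∧ Polynomial.aeval S.u p = f := by
  have : Nonempty ι := ⟨S.i₀⟩
  constructor
  · rintro ⟨h1, h2⟩
    obtain ⟨p, hp, rfl⟩ := S.mem_Deg.1 h2
    exact ⟨p, hp, S.aeval_mem_U.1 h1, rfl⟩
  · rintro ⟨p, hp, h, rfl⟩
    exact ⟨S.aeval_mem_U.2 h, S.mem_Deg.2 ⟨p, hp, rfl⟩⟩

theorem sec_mem_V {i m a : ℕ} (h : i ≤ m) {s : K} (hs : Sec S.x S.g i a s) :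
    algebraMap K M s * S.u ^ i ∈ S.V m a := by
  refine S.mem_V.2 ⟨Polynomial.monomial i s, (Polynomial.natDegree_monomial_le s).trans h,
    fun l => ?_, Polynomial.aeval_monomial _⟩
  rw [Polynomial.coeff_monomial]
  split_ifs with e
  · exact e ▸ hs
  · intro j
    rw [zero_div]
    exact zero_mem _

theorem V_le_span (m a : ℕ) : S.V m a ≤ Submodule.span ℂ
    {f | ∃ (i : ℕ) (s : K), i ≤ m ∧ Sec S.x S.g i a s ∧ f = algebraMap K M s * S.u ^ i} := by
  intro f hf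
  obtain ⟨p, hp, h, rfl⟩ := S.mem_V.1 hf
  rw [Polynomial.aeval_eq_sum_range]
  exact sum_mem fun i hi => Submodule.subset_span ⟨i, p.coeff i,
    (Nat.le_of_lt_succ (Finset.mem_range.1 hi)).trans hp, h i, Algebra.smul_def _ _⟩

theorem V_le_U (m a : ℕ) : S.V m a ≤ S.U a := inf_le_left

theorem exists_V {a : ℕ} {f : M} (h : f ∈ S.U a) : ∃ m, f ∈ S.V m a := by
  have h' := h S.i₀
  rw [S.X_one, one_pow, div_one] at h'
  obtain ⟨p, -, hp⟩ := S.mem_B.1 h'
  exact ⟨p.natDegree, h, S.mem_Deg.2 ⟨p, le_rfl, hp⟩⟩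

theorem U_eq_iSup (a : ℕ) : S.U a = ⨆ m, S.V m a := by
  refine le_antisymm (fun f hf => ?_) (iSup_le fun m => S.V_le_U m a)
  obtain ⟨m, h⟩ := S.exists_V hf
  exact Submodule.mem_iSup_of_mem m h

theorem V_mono {m m' a a' : ℕ} (hm : m ≤ m') (ha : a ≤ a') : S.V m a ≤ S.V m' a' := by
  refine inf_le_inf (S.U_mono ha) fun f hf => ?_
  obtain ⟨p, hp, h⟩ := S.mem_Deg.1 hf
  exact S.mem_Deg.2 ⟨p, hp.trans hm, h⟩

theorem one_mem_V (m a : ℕ) : (1 : M) ∈ S.V m a := by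
  exact ⟨S.U_mono (Nat.zero_le a) S.one_mem_U, S.mem_Deg.2 ⟨1, by simp, map_one _⟩⟩

theorem X_mem_V (l : ι) : S.X l ∈ S.V 0 1 := by
  exact ⟨S.X_mem_U l, S.mem_Deg.2 ⟨Polynomial.C (S.x l : K), by simp, Polynomial.aeval_C _ _⟩⟩

variable {S} in
theorem mul_mem_V {m m' a a' : ℕ} {f f' : M} (h : f ∈ S.V m a) (h' : f' ∈ S.V m' a') :
    f * f' ∈ S.V (m + m') (a + a') := by
  obtain ⟨p, hp, e⟩ := S.mem_Deg.1 h.2
  obtain ⟨q, hq, e'⟩ := S.mem_Deg.1 h'.2
  exact ⟨mul_mem_U h.1 h'.1, S.mem_Deg.2 ⟨p * q, Polynomial.natDegree_mul_le_of_le hp hq, by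
    rw [map_mul, e, e']⟩⟩

variable {S} in
theorem pow_mem_V {m a : ℕ} {f : M} (h : f ∈ S.V m a) (N : ℕ) : f ^ N ∈ S.V (N * m) (N * a) := by
  induction N with
  | zero =>
    rw [pow_zero]
    exact S.one_mem_V _ _
  | succ N ih =>
    rw [pow_succ, Nat.succ_mul, Nat.succ_mul]
    exact mul_mem_V ih h

end Pool.Agent.Lib.MP_bc213e_ag.DD.Su
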